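import Mathlib

section

/-!
Families of subsets of a group that force a map `φ : G → G` to commute with right
multiplication.
-/

set_option autoImplicit false

namespace Pool.Agent.MP_a1dcd4_co.OR

open Function

variable {G : Type} [Group G]

/-- all nontrivial quotients `s⁻¹ * t` are distinct -/
def Sidon (S : Set G) : Prop :=
  ∀ s ∈ S, ∀ t ∈ S, ∀ s' ∈ S, ∀ t' ∈ S, s⁻¹ * t = s'⁻¹ * t' → s⁻¹ * t = 1 ∨ s = s'

/-- a Sidon set or a subgroup -/
def Good (S : Set G) : Prop := Sidon S ∨ ∃ K : Subgroup G, S = K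

/-- `φ` maps `g S` into `φ g S` -/
def Pres (S : Set G) (φ : G → G) : Prop := ∀ g, ∀ s ∈ S, ∃ s' ∈ S, φ (g * s) = φ g * s'

/-- `φ` commutes with right multiplication by `z` -/
def Fixes (φ : G → G) (z : G) : Prop := ∀ g, φ (g * z) = φ g * z

/-- at most `n` good sets force every injective `φ` preserving them to fix `Z` -/
def Ctl (n : ℕ) (Z : Set G) : Prop :=
  ∃ F : List (Set G), F.length ≤ n ∧ (∀ S ∈ F, Good S) ∧
    ∀ φ : G → G, Injective φ → (∀ S ∈ F, Pres S φ) → ∀ z ∈ Z, Fixes φ z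

/-- distinct elements have a quotient that is not an involution -/
def CFree (U : Set G) : Prop := ∀ x ∈ U, ∀ y ∈ U, x ≠ y → (x⁻¹ * y) ^ 2 ≠ 1

/-- number of commuting pairs -/
noncomputable def comm (H : Type) [Group H] : ℕ :=
  Nat.card {p : H × H // p.1 * p.2 = p.2 * p.1}

/-- a quadratic function with values in `ZMod 2` -/
structure QF (P : Type) [Group P] where
  Q : P → ZMod 2
  β : P → P → ZMod 2
  hQ : ∀ g h, Q (g * h) = Q g + Q h + β g h
  hβ : ∀ g h k, β (g * h) k = β g k + β h k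
  hsymm : ∀ g h, β g h = β h g
  hsq : ∀ g, g ^ 2 = 1 → Q g = 0
  hcomm : ∀ g h, g * h = h * g → β g h = 0

theorem Sidon.mono {S T : Set G} (h : Sidon T) (hS : S ⊆ T) : Sidon S :=
  fun s hs t ht s' hs' t' ht' e => h s (hS hs) t (hS ht) s' (hS hs') t' (hS ht') e

theorem Fixes.one (φ : G → G) : Fixes φ 1 := fun g => by simp

theorem Fixes.mul {φ : G → G} {x y : G} (hx : Fixes φ x) (hy : Fixes φ y) : Fixes φ (x * y) :=
  fun g => by rw [← mul_assoc, hy, hx, mul_assoc]

theorem Fixes.inv {φ : G → G} {x : G} (hx : Fixes φ x) : Fixes φ x⁻¹ := fun g => by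
  have := hx (g * x⁻¹)
  rw [inv_mul_cancel_right] at this
  rw [this, mul_inv_cancel_right]

theorem Fixes.closure {φ : G → G} {Z : Set G} (h : ∀ z ∈ Z, Fixes φ z) :
    ∀ z ∈ Subgroup.closure Z, Fixes φ z := by
  intro z hz
  induction hz using Subgroup.closure_induction with
  | mem x hx => exact h x hx
  | one => exact Fixes.one φ
  | mul x y _ _ hx hy => exact hx.mul hy
  | inv x _ hx => exact hx.inv

theorem Ctl.mono {n m : ℕ} {Z W : Set G} (h : Ctl n Z) (hn : n ≤ m) (hW : W ⊆ Z) : Ctl m W := by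
  obtain ⟨F, h1, h2, h3⟩ := h
  exact ⟨F, h1.trans hn, h2, fun φ hφ hF z hz => h3 φ hφ hF z (hW hz)⟩

theorem Ctl.union {n m : ℕ} {Z W : Set G} (h : Ctl n Z) (h' : Ctl m W) :
    Ctl (n + m) (Z ∪ W) := by
  obtain ⟨F, h1, h2, h3⟩ := h
  obtain ⟨F', h1', h2', h3'⟩ := h'
  refine ⟨F ++ F', by simp; omega, ?_, ?_⟩
  · intro S hS
    rcases List.mem_append.1 hS with hS | hS
    · exact h2 S hS
    · exact h2' S hS
  · intro φ hφ hF z hz
    rcases hz with hz | hz
    · exact h3 φ hφ (fun S hS => hF S (List.mem_append_left _ hS)) z hz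
    · exact h3' φ hφ (fun S hS => hF S (List.mem_append_right _ hS)) z hz

theorem Ctl.closure {n : ℕ} {Z : Set G} (h : Ctl n Z) : Ctl n (Subgroup.closure Z : Set G) := by
  obtain ⟨F, h1, h2, h3⟩ := h
  exact ⟨F, h1, h2, fun φ hφ hF => Fixes.closure (h3 φ hφ hF)⟩

theorem Ctl.empty : Ctl 0 (∅ : Set G) := ⟨[], le_rfl, by simp, by simp⟩

theorem Ctl.iUnion {n : ℕ} (D : ℕ) (Z : ℕ → Set G) (h : ∀ i < D, Ctl n (Z i)) :
    Ctl (D * n) {z | ∃ i < D, z ∈ Z i} := by
  induction D with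
  | zero => simpa using Ctl.empty
  | succ D ih =>
    refine ((ih (fun i hi => h i (by omega))).union (h D (by omega))).mono (by ring_nf; rfl) ?_
    rintro z ⟨i, hi, hz⟩
    rcases Nat.lt_succ_iff_lt_or_eq.1 hi with hi | rfl
    · exact Or.inl ⟨i, hi, hz⟩
    · exact Or.inr hz

theorem Good.image (H : Subgroup G) {S : Set H} (h : Good S) :
    Good ((fun x : H => (x : G)) '' S) := by
  rcases h with h | ⟨K, rfl⟩
  · left
    rintro _ ⟨s, hs, rfl⟩ _ ⟨t, ht, rfl⟩ _ ⟨s', hs', rfl⟩ _ ⟨t', ht', rfl⟩ e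
    rcases h s hs t ht s' hs' t' ht' (Subtype.ext e) with h1 | h1
    · exact Or.inl (congrArg Subtype.val h1)
    · exact Or.inr (congrArg Subtype.val h1)
  · exact Or.inr ⟨K.map H.subtype, by simp⟩

theorem Ctl.of_subgroup {n : ℕ} (H : Subgroup G) (h : Ctl n (Set.univ : Set H)) :
    Ctl (n + 1) (H : Set G) := by
  obtain ⟨F, h1, h2, h3⟩ := h
  refine ⟨(H : Set G) :: F.map (fun S => (fun x : H => (x : G)) '' S), by simpa using h1, ?_, ?_⟩
  · intro S hS
    rcases List.mem_cons.1 hS with rfl | hS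
    · exact Or.inr ⟨H, rfl⟩
    · obtain ⟨T, hT, rfl⟩ := List.mem_map.1 hS
      exact (h2 T hT).image H
  · intro φ hφ hF z hz g
    have hH : Pres (H : Set G) φ := hF _ List.mem_cons_self
    have hm : ∀ x : H, (φ g)⁻¹ * φ (g * x) ∈ H := by
      intro x
      obtain ⟨s, hs, e⟩ := hH g x x.2
      rw [e, inv_mul_cancel_left]
      exact hs
    let ψ : H → H := fun x => ⟨(φ g)⁻¹ * φ (g * x), hm x⟩
    have hψ : Injective ψ := by
      intro x y e
      have e' : (φ g)⁻¹ * φ (g * x) = (φ g)⁻¹ * φ (g * y) := congrArg Subtype.val e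
      exact Subtype.ext (mul_left_cancel (hφ (mul_left_cancel e')))
    have := h3 ψ hψ (by
      intro S hS x s hs
      obtain ⟨_, ⟨s', hs', rfl⟩, e⟩ := hF _ (List.mem_cons_of_mem _ (List.mem_map.2 ⟨S, hS, rfl⟩))
        (g * x) s ⟨s, hs, rfl⟩
      refine ⟨s', hs', Subtype.ext ?_⟩
      change (φ g)⁻¹ * φ (g * (x * s)) = (φ g)⁻¹ * φ (g * x) * s'
      rw [← mul_assoc g, e, mul_assoc]) ⟨z, hz⟩ trivial 1
    have e : (φ g)⁻¹ * φ (g * (1 * z)) = (φ g)⁻¹ * φ (g * 1) * z := congrArg Subtype.val this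
    rw [one_mul, mul_one, inv_mul_cancel, one_mul] at e
    exact inv_mul_eq_iff_eq_mul.1 e

namespace QF

variable {P : Type} [Group P] (q : QF P)

theorem β_self (g : P) : q.β g g = 0 := q.hcomm g g rfl

theorem β_one (k : P) : q.β 1 k = 0 := q.hcomm 1 k (by simp)

theorem β_one' (k : P) : q.β k 1 = 0 := q.hcomm k 1 (by simp)

theorem hβ' (g h k : P) : q.β k (g * h) = q.β k g + q.β k h := by
  rw [q.hsymm, q.hβ, q.hsymm g, q.hsymm h]

theorem β_inv (g k : P) : q.β g⁻¹ k = q.β g k := by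
  have h := q.hβ g⁻¹ g k
  rw [inv_mul_cancel, q.β_one] at h
  generalize q.β g⁻¹ k = a at h ⊢
  generalize q.β g k = b at h ⊢
  revert a b
  decide

theorem β_inv' (g k : P) : q.β k g⁻¹ = q.β k g := by
  rw [q.hsymm, q.β_inv, q.hsymm]

theorem Q_one : q.Q 1 = 0 := q.hsq 1 (by simp)

theorem Q_inv (g : P) : q.Q g⁻¹ = q.Q g := by
  have h := q.hQ g⁻¹ g
  rw [inv_mul_cancel, q.Q_one, q.β_inv, q.β_self] at h
  generalize q.Q g⁻¹ = a at h ⊢
  generalize q.Q g = b at h ⊢
  revert a b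
  decide

/-- the singular radical of a subgroup -/
def rad (W : Subgroup P) : Subgroup P where
  carrier := {g | g ∈ W ∧ q.Q g = 0 ∧ ∀ h ∈ W, q.β g h = 0}
  one_mem' := ⟨W.one_mem, q.Q_one, fun h _ => q.β_one h⟩
  mul_mem' := by
    rintro a b ⟨ha, ha1, ha2⟩ ⟨hb, hb1, hb2⟩
    refine ⟨W.mul_mem ha hb, by rw [q.hQ, ha1, hb1, ha2 b hb]; simp, fun h hh => ?_⟩
    rw [q.hβ, ha2 h hh, hb2 h hh, add_zero]
  inv_mem' := by
    rintro a ⟨ha, ha1, ha2⟩
    exact ⟨W.inv_mem ha, by rw [q.Q_inv, ha1], fun h hh => by rw [q.β_inv, ha2 h hh]⟩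

theorem mem_rad {W : Subgroup P} {g : P} :
    g ∈ q.rad W ↔ g ∈ W ∧ q.Q g = 0 ∧ ∀ h ∈ W, q.β g h = 0 := Iff.rfl

theorem sq_ne_one {x y : P} (h : q.Q x + q.Q y + q.β x y = 1) : (x⁻¹ * y) ^ 2 ≠ 1 := by
  intro e
  have h1 := q.hsq _ e
  rw [q.hQ, q.Q_inv, q.β_inv, h] at h1
  exact absurd h1 (by decide)

end QF

end Pool.Agent.MP_a1dcd4_co.OR

end

section

/-!
Statements of the steps.
-/

set_option autoImplicit false

namespace Pool.Agent.MP_a1dcd4_co.OR

open Function

/-- `G` is the automorphism group of a finite lattice with at most `c` orbits -/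
def Orb (c : ℕ) (G : Type) [Group G] : Prop :=
  ∃ (L : Type) (_ : Lattice L) (_ : Finite L), Nonempty ((L ≃o L) ≃* G) ∧
    Nat.card L ≤ c * Nat.card G ∧
    ∃ R : Finset L, R.card ≤ c ∧ ∀ x : L, ∃ r ∈ R, ∃ α : L ≃o L, α r = x

def S_Geom : Prop :=
  ∀ n : ℕ, ∃ c : ℕ, ∀ (G : Type) [Group G] [Finite G], Ctl n (Set.univ : Set G) → Orb c G

def S_Net : Prop :=
  ∀ (H : Type) [Group H] [Finite H] (N : Subgroup H) [N.Normal], (∀ x : H, x ^ 2 ∈ N) →
    ∃ K : Fin 6 → Subgroup H, ∀ φ : H → H, Injective φ → (∀ i, Pres (K i : Set H) φ) →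
      ∀ g z, (φ g * z)⁻¹ * φ (g * z) ∈ N

def S_QF : Prop :=
  ∀ (P : Type) [Group P] [Finite P], IsPGroup 2 P → (∃ x : P, x ^ 2 ≠ 1) →
    ∃ q : QF P, ∃ g, q.Q g = 1

def S_Clif : Prop :=
  ∀ (P : Type) [Group P] [Finite P] (q : QF P) (W : Subgroup P) (c : ZMod 2),
    ∃ U F : Finset P, (∀ u ∈ U, u ∈ W ∧ q.Q u = c) ∧
      (∀ u ∈ U, ∀ v ∈ U, u ≠ v → q.β u v = 1) ∧ F.card ≤ 2 ∧ (∀ f ∈ F, f ∈ W) ∧
      W ≤ Subgroup.closure ((q.rad W : Set P) ∪ (U : Set P) ∪ (F : Set P))

def S_CountA : Prop :=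
  ∀ (P : Type) [Group P] [Finite P] (R : Subgroup P) (B : Set (P × P)),
    (∀ x y : P, ∀ r ∈ R, ∀ r' ∈ R, (x * r) * (y * r') = (y * r') * (x * r) → (x, y) ∈ B) →
      Nat.card R ^ 2 * comm P ≤ B.ncard * comm R

def S_CountB : Prop :=
  ∀ (P : Type) [Group P] [Finite P] (q : QF P), (∃ e f, q.β e f = 1) →
    4 * {p : P × P | q.β p.1 p.2 = 0}.ncard ≤ 3 * Nat.card P ^ 2

def S_CountC : Prop :=
  ∀ (P : Type) [Group P] [Finite P] (R : Subgroup P) (x : P),
    {h : P | h ∈ R ∧ (x * h) ^ 2 = 1}.ncard ^ 2 ≤ comm R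

def S_Add : Prop :=
  ∀ (P : Type) [Group P] [Finite P] (R : Subgroup P) (j : ℕ) (L : Fin 6 → Finset P) (f : P),
    comm R * 4 ^ j ≤ 3 ^ j * Nat.card R ^ 2 → ∑ i, (L i).card ≤ 2 * j + 1 →
    (∀ i, CFree (L i : Set P)) →
      ∃ L' : Fin 6 → Finset P, ∑ i, (L' i).card ≤ ∑ i, (L i).card + 1 ∧
        (∀ i, CFree (L' i : Set P)) ∧ (∀ i, L i ⊆ L' i) ∧ ∃ h ∈ R, ∃ i, f * h ∈ L' i

def S_TwoGen : Prop :=
  ∀ (P : Type) [Group P] [Finite P], IsPGroup 2 P →
    ∃ (E : Subgroup P) (U : Fin 7 → Finset P), (∀ x ∈ E, x ^ 2 = 1) ∧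
      (∀ i, CFree (U i : Set P)) ∧ Subgroup.closure ((E : Set P) ∪ ⋃ i, (U i : Set P)) = ⊤

def S_Two : Prop :=
  ∀ (P : Type) [Group P] [Finite P], IsPGroup 2 P → Ctl 20 (Set.univ : Set P)

def S_AbL : Prop :=
  ∀ (q : ℕ) [Fact q.Prime] (Q : Type) [Group Q] [Finite Q], IsPGroup q Q →
    ∃ (s : ℕ) (Y : Finset Q), Y.card ≤ s ^ 2 + s ∧ Subgroup.closure (Y : Set Q) = ⊤ ∧
      ∀ w : Q, ∃ A : Subgroup Q, w ∈ A ∧ (∀ a ∈ A, ∀ b ∈ A, a * b = b * a) ∧
        q ^ s ≤ Nat.card A

def S_Ext : Prop :=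
  ∀ (G : Type) [Group G] [Finite G] (S : Finset G) (A : Subgroup G), Sidon (S : Set G) →
    (∀ s ∈ S, Odd (orderOf s)) → (∀ a ∈ A, ∀ b ∈ A, a * b = b * a) →
    (∀ a ∈ A, Odd (orderOf a)) →
      ∃ B : Finset G, B.card ≤ 2 * S.card ^ 3 ∧
        ∀ z ∈ A, z ∉ B → z ∉ S ∧ Sidon (insert z (S : Set G))

def S_Star : Prop :=
  ∀ (G : Type) [Group G] [Finite G] (Λ : Finset ℕ) (w : ℕ → G) (A : ℕ → Subgroup G),
    (∀ l ∈ Λ, w l ∈ A l ∧ (∀ a ∈ A l, ∀ b ∈ A l, a * b = b * a) ∧
      (∀ a ∈ A l, Odd (orderOf a)) ∧ 4 * (l + 2) ^ 6 < Nat.card (A l)) →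
      Ctl 4 (w '' (Λ : Set ℕ))

def S_TypeA : Prop :=
  ∀ (G : Type) [Group G] [Finite G] (D : ℕ) (Z : Finset G) (π ι : G → ℕ),
    (∀ z ∈ Z, (π z).Prime ∧ π z ≠ 2 ∧ (∃ n, z ^ (π z ^ n) = 1) ∧ ι z < D) →
    (∀ z ∈ Z, ∀ z' ∈ Z, π z = π z' → ι z = ι z' → z = z') → Ctl (D * 2) (Z : Set G)

def S_Num : Prop :=
  ∀ q s i : ℕ, 3 ≤ q → 160 ≤ s → i < s ^ 2 + s → 4 * (Nat.pair q i + 2) ^ 6 < q ^ s

def S_All : Prop :=
  ∃ n : ℕ, ∀ (G : Type) [Group G] [Finite G], Ctl n (Set.univ : Set G)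

end Pool.Agent.MP_a1dcd4_co.OR

end

section

/-! Six subgroups force a map to be a translation modulo `N` when `H / N` has exponent two. -/

set_option autoImplicit false

namespace Pool.Agent.MP_a1dcd4_co.OR

open Function

theorem coord_Net (V : Type) [AddCommGroup V] [Finite V] (h : ∀ x : V, 2 • x = 0) :
    ∃ (n : ℕ) (p : V →+ (ℕ → ZMod 2)), Injective p ∧ (∀ x i, n ≤ i → p x i = 0) ∧
      ∀ i < n, ∃ e, p e = Pi.single i 1 := by
  classical
  let _ : Module (ZMod 2) V := AddCommGroup.zmodModule h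
  have _ : Fact (Nat.Prime 2) := ⟨Nat.prime_two⟩
  have _ : Module.Finite (ZMod 2) V := Module.Finite.of_finite
  let b := Module.finBasis (ZMod 2) V
  refine ⟨Module.finrank (ZMod 2) V,
    { toFun := fun x i => if hi : i < Module.finrank (ZMod 2) V then b.repr x ⟨i, hi⟩ else 0
      map_zero' := ?_
      map_add' := ?_ }, ?_, ?_, ?_⟩
  · ext i
    simp
  · intro x y
    ext i
    by_cases hi : i < Module.finrank (ZMod 2) V <;> simp [hi]
  · intro x y e
    apply b.repr.injective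
    ext i
    have := congrFun e i
    simpa [i.2] using this
  · intro x i hi
    simp [not_lt.2 hi]
  · intro i hi
    refine ⟨b ⟨i, hi⟩, ?_⟩
    ext j
    by_cases hj : j < Module.finrank (ZMod 2) V
    · simp [hj, Finsupp.single_apply, Pi.single_apply, Fin.ext_iff, eq_comm]
    · have : j ≠ i := by omega
      simp [hj, this]

theorem proj_Net (H : Type) [Group H] [Finite H] (N : Subgroup H) [N.Normal]
    (h : ∀ x : H, x ^ 2 ∈ N) :
    ∃ (n : ℕ) (p : H → ℕ → ZMod 2), (∀ x y, p (x * y) = p x + p y) ∧ (∀ x, p x = 0 ↔ x ∈ N) ∧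
      (∀ x i, n ≤ i → p x i = 0) ∧ ∀ i < n, ∃ e, p e = Pi.single i 1 := by
  have h2 : ∀ x : H ⧸ N, x * x = 1 := by
    intro x
    obtain ⟨x, rfl⟩ := QuotientGroup.mk_surjective x
    rw [← QuotientGroup.mk_mul, ← sq]
    exact (QuotientGroup.eq_one_iff _).2 (h x)
  have hi : ∀ x : H ⧸ N, x⁻¹ = x := fun x => inv_eq_of_mul_eq_one_right (h2 x)
  let _ : CommGroup (H ⧸ N) :=
    { (inferInstance : Group (H ⧸ N)) with
      mul_comm := fun x y => by rw [← hi (x * y), mul_inv_rev, hi, hi] }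
  obtain ⟨n, p, h1, h3, h4⟩ := coord_Net (Additive (H ⧸ N)) (fun x => by
    rw [two_nsmul]
    exact h2 (Additive.toMul x))
  refine ⟨n, fun x => p (Additive.ofMul (x : H ⧸ N)), fun x y => ?_, fun x => ?_,
    fun x i hi => h3 _ i hi, fun i hi => ?_⟩
  · rw [← map_add]
    rfl
  · rw [← QuotientGroup.eq_one_iff, map_eq_zero_iff p h1]
    exact ofMul_eq_zero
  · obtain ⟨e, he⟩ := h4 i hi
    obtain ⟨x, hx⟩ := QuotientGroup.mk_surjective (Additive.toMul e)
    exact ⟨x, by simp only [hx]; exact he⟩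

/-- sequences vanishing on a set of indices -/
def van_Net (S : Set ℕ) : AddSubgroup (ℕ → ZMod 2) where
  carrier := {f | ∀ i ∈ S, f i = 0}
  zero_mem' := fun _ _ => rfl
  add_mem' := fun {a b} ha hb i hi => by simp [ha i hi, hb i hi]
  neg_mem' := fun {a} ha i hi => by simp [ha i hi]

/-- sequences with equal entries at `2 j + c` and `2 j + c + 1` that vanish before `c` -/
def pair_Net (c : ℕ) : AddSubgroup (ℕ → ZMod 2) where
  carrier := {f | (∀ i < c, f i = 0) ∧ ∀ j, f (2 * j + c) = f (2 * j + c + 1)}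
  zero_mem' := ⟨fun _ _ => rfl, fun _ => rfl⟩
  add_mem' := fun {a b} ha hb =>
    ⟨fun i hi => by simp [ha.1 i hi, hb.1 i hi], fun j => by simp [ha.2 j, hb.2 j]⟩
  neg_mem' := fun {a} ha => ⟨fun i hi => by simp [ha.1 i hi], fun j => by simp [ha.2 j]⟩

theorem single_van_Net (i : ℕ) :
    (Pi.single (i + 1) 1 : ℕ → ZMod 2) ∈ van_Net {j | j % 2 = i % 2} := by
  intro j hj
  have hj' : j % 2 = i % 2 := hj
  have : j ≠ i + 1 := by omega
  simp [this]

theorem single_pair_Net (i : ℕ) :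
    (Pi.single (i + 1) 1 - Pi.single i 1 : ℕ → ZMod 2) ∈ pair_Net (i % 2) := by
  refine ⟨fun j hj => ?_, fun j => ?_⟩
  · have h1 : j ≠ i + 1 := by omega
    have h2 : j ≠ i := by omega
    simp [h1, h2]
  · by_cases h : 2 * j + i % 2 = i
    · rw [h]
      simp only [Pi.sub_apply, Pi.single_eq_same, ne_eq, Nat.left_eq_add, one_ne_zero,
        not_false_eq_true, Pi.single_eq_of_ne, Nat.add_eq_left]
      decide
    · have h1 : 2 * j + i % 2 ≠ i + 1 := by omega
      have h2 : 2 * j + i % 2 + 1 ≠ i + 1 := by omega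
      have h3 : 2 * j + i % 2 + 1 ≠ i := by omega
      simp only [Pi.sub_apply, Pi.single_eq_of_ne h, Pi.single_eq_of_ne h1, Pi.single_eq_of_ne h2,
        Pi.single_eq_of_ne h3]

theorem inter_Net (c : ℕ) (hc : c < 2) (u : ℕ → ZMod 2) (h1 : u ∈ van_Net {j | j % 2 = c})
    (h2 : u ∈ pair_Net c) : u = 0 := by
  ext j
  by_cases hj : j % 2 = c
  · exact h1 j hj
  · by_cases hl : j < c
    · exact h2.1 j hl
    · have e : j = 2 * ((j - c - 1) / 2) + c + 1 := by omega
      rw [e, ← h2.2]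
      exact h1 _ (show (2 * ((j - c - 1) / 2) + c) % 2 = c by omega)

section
variable {H : Type} [Group H] {p : H → ℕ → ZMod 2} (hp : ∀ x y, p (x * y) = p x + p y)
include hp

theorem one_Net : p 1 = 0 := by simpa using hp 1 1

theorem inv_Net (x : H) : p x⁻¹ = -p x := by
  have := hp x⁻¹ x
  rw [inv_mul_cancel, one_Net hp] at this
  exact eq_neg_of_add_eq_zero_left this.symm

/-- the preimage of a subgroup of sequences -/
def pre_Net (A : AddSubgroup (ℕ → ZMod 2)) : Subgroup H where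
  carrier := {x | p x ∈ A}
  one_mem' := by
    show p 1 ∈ A
    rw [one_Net hp]
    exact A.zero_mem
  mul_mem' := fun {a b} ha hb => by
    show p (a * b) ∈ A
    rw [hp]
    exact A.add_mem ha hb
  inv_mem' := fun {a} ha => by
    show p a⁻¹ ∈ A
    rw [inv_Net hp]
    exact A.neg_mem ha

theorem pres_Net {A : AddSubgroup (ℕ → ZMod 2)} {φ : H → H}
    (h : Pres (pre_Net hp A : Set H) φ) (g z : H) (hz : p z ∈ A) :
    p (φ (g * z)) - p (φ g) ∈ A := by
  obtain ⟨s, hs, e⟩ := h g z hz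
  rw [e, hp, add_sub_cancel_left]
  exact hs

end

theorem coset_Net {H : Type} [Group H] [Finite H] {N : Subgroup H} {φ : H → H} (hφ : Injective φ)
    (h : Pres (N : Set H) φ) (g z : H) (hz : (φ g)⁻¹ * φ (g * z) ∈ N) : z ∈ N := by
  have hm : ∀ x : N, (φ g)⁻¹ * φ (g * x) ∈ N := by
    intro x
    obtain ⟨s, hs, e⟩ := h g x x.2
    rw [e, inv_mul_cancel_left]
    exact hs
  let ψ : N → N := fun x => ⟨(φ g)⁻¹ * φ (g * x), hm x⟩
  have hψ : Injective ψ := by
    intro x y e
    have e' : (φ g)⁻¹ * φ (g * x) = (φ g)⁻¹ * φ (g * y) := congrArg Subtype.val e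
    exact Subtype.ext (mul_left_cancel (hφ (mul_left_cancel e')))
  obtain ⟨x, hx⟩ := Finite.injective_iff_surjective.1 hψ ⟨_, hz⟩
  have e' : (φ g)⁻¹ * φ (g * x) = (φ g)⁻¹ * φ (g * z) := congrArg Subtype.val hx
  rw [← mul_left_cancel (hφ (mul_left_cancel e'))]
  exact x.2

theorem net : S_Net := by
  intro H _ _ N _ h
  obtain ⟨n, p, hp, hN, hn, he⟩ := proj_Net H N h
  refine ⟨![N, pre_Net hp (van_Net {j | j ≠ 0}), pre_Net hp (van_Net {j | j % 2 = 0}),
    pre_Net hp (van_Net {j | j % 2 = 1}), pre_Net hp (pair_Net 0), pre_Net hp (pair_Net 1)],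
    fun φ hφ hK => ?_⟩
  have k0 : Pres (N : Set H) φ := hK 0
  have k1 := pres_Net hp (hK 1)
  have kv : ∀ c < 2, ∀ g z, p z ∈ van_Net {j | j % 2 = c} →
      p (φ (g * z)) - p (φ g) ∈ van_Net {j | j % 2 = c} := by
    intro c hc
    interval_cases c
    · exact pres_Net hp (hK 2)
    · exact pres_Net hp (hK 3)
  have kp : ∀ c < 2, ∀ g z, p z ∈ pair_Net c → p (φ (g * z)) - p (φ g) ∈ pair_Net c := by
    intro c hc
    interval_cases c
    · exact pres_Net hp (hK 4)
    · exact pres_Net hp (hK 5)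
  have step : ∀ i < n, ∀ e, p e = Pi.single i 1 → ∀ g, p (φ (g * e)) = p (φ g) + p e := by
    intro i
    induction i with
    | zero =>
      intro _ e he0 g
      have h1 := k1 g e (fun j hj => by rw [he0]; exact Pi.single_eq_of_ne hj _)
      have h2 : p (φ (g * e)) - p (φ g) ≠ 0 := by
        intro h0
        have : e ∈ N := coset_Net hφ k0 g e ((hN _).1 (by rw [hp, inv_Net hp, neg_add_eq_sub, h0]))
        have h3 := congrFun ((hN e).2 this) 0
        rw [he0] at h3
        simp at h3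
      rw [← sub_eq_iff_eq_add', he0]
      generalize p (φ (g * e)) - p (φ g) = d at h1 h2
      ext j
      by_cases hj : j = 0
      · subst hj
        have h3 : d 0 ≠ 0 := by
          intro h0
          apply h2
          ext j
          by_cases hj : j = 0
          · rw [hj]; exact h0
          · exact h1 j hj
        rw [Pi.single_eq_same]
        generalize d 0 = a at h3
        revert a
        decide
      · rw [Pi.single_eq_of_ne hj]
        exact h1 j hj
    | succ i ih =>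
      intro hi e he1 g
      obtain ⟨e', he'⟩ := he i (by omega)
      have hc : i % 2 < 2 := Nat.mod_lt _ two_pos
      have h1 := kv _ hc g e (he1 ▸ single_van_Net i)
      have h2 := kp _ hc (g * e') (e'⁻¹ * e) (by
        rw [hp, inv_Net hp, neg_add_eq_sub, he1, he']
        exact single_pair_Net i)
      rw [mul_assoc, mul_inv_cancel_left, ih (by omega) e' he' g, he'] at h2
      have h3 := inter_Net _ hc (p (φ (g * e)) - p (φ g) - Pi.single (i + 1) 1)
        (AddSubgroup.sub_mem _ h1 (single_van_Net i)) (by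
          have := AddSubgroup.sub_mem _ h2 (single_pair_Net i)
          have e2 : p (φ (g * e)) - p (φ g) - Pi.single (i + 1) 1 =
              p (φ (g * e)) - (p (φ g) + Pi.single i 1) -
                (Pi.single (i + 1) 1 - Pi.single i 1) := by abel
          rw [e2]
          exact this)
      rw [← sub_eq_iff_eq_add', he1]
      exact sub_eq_zero.1 h3
  have all : ∀ m ≤ n, ∀ z, (∀ i, m ≤ i → p z i = 0) → ∀ g, p (φ (g * z)) = p (φ g) + p z := by
    intro m
    induction m with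
    | zero =>
      intro _ z hz g
      have h0 : p z = 0 := funext fun i => hz i (Nat.zero_le i)
      obtain ⟨s, hs, e⟩ := k0 g z ((hN z).1 h0)
      rw [e, hp, h0, (hN s).2 hs]
    | succ m ih =>
      intro hm z hz g
      by_cases h0 : p z m = 0
      · refine ih (by omega) z (fun i hi => ?_) g
        rcases eq_or_lt_of_le hi with rfl | hi
        · exact h0
        · exact hz i hi
      · obtain ⟨e, he1⟩ := he m (by omega)
        have h1 := ih (by omega) (z * e) (fun i hi => by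
          rw [hp, he1, Pi.add_apply]
          rcases eq_or_lt_of_le hi with rfl | hi
          · rw [Pi.single_eq_same]
            generalize p z m = a at h0
            revert a
            decide
          · rw [hz i hi, Pi.single_eq_of_ne hi.ne', add_zero]) g
        rw [← mul_assoc, step m (by omega) e he1, hp, ← add_assoc] at h1
        exact add_right_cancel h1
  intro g z
  rw [← hN, hp, inv_Net hp, hp, all n le_rfl z (hn z) g, neg_add_cancel]

end Pool.Agent.MP_a1dcd4_co.OR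

end

section

/-!
Clique generation for a quadratic function.
-/

set_option autoImplicit false

namespace Pool.Agent.MP_a1dcd4_co.OR

open Function

variable {P : Type} [Group P]

theorem zmod2_Clif (a : ZMod 2) : a = 0 ∨ a = 1 := by
  revert a
  decide

/-- elements of `W` orthogonal to `e` and `f` -/
def perp (q : QF P) (W : Subgroup P) (e f : P) : Subgroup P where
  carrier := {g | g ∈ W ∧ q.β g e = 0 ∧ q.β g f = 0}
  one_mem' := ⟨W.one_mem, q.β_one e, q.β_one f⟩
  mul_mem' := by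
    rintro a b ⟨ha, ha1, ha2⟩ ⟨hb, hb1, hb2⟩
    exact ⟨W.mul_mem ha hb, by rw [q.hβ, ha1, hb1, add_zero], by rw [q.hβ, ha2, hb2, add_zero]⟩
  inv_mem' := by
    rintro a ⟨ha, ha1, ha2⟩
    exact ⟨W.inv_mem ha, by rw [q.β_inv, ha1], by rw [q.β_inv, ha2]⟩

theorem perp_gen (q : QF P) (W : Subgroup P) {e f : P} (he : e ∈ W) (hf : f ∈ W)
    (hef : q.β e f = 1) (K : Subgroup P) (h1 : perp q W e f ≤ K) (h2 : e ∈ K) (h3 : f ∈ K) :
    W ≤ K := by
  intro g hg
  have hfe : q.β f e = 1 := by rw [q.hsymm, hef]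
  rcases zmod2_Clif (q.β g e) with a | a <;> rcases zmod2_Clif (q.β g f) with b | b
  · exact h1 ⟨hg, a, b⟩
  · have : g * e ∈ perp q W e f := ⟨W.mul_mem hg he, by rw [q.hβ, a, q.β_self]; decide,
      by rw [q.hβ, b, hef]; decide⟩
    exact (K.mul_mem_cancel_right h2).1 (h1 this)
  · have : g * f ∈ perp q W e f := ⟨W.mul_mem hg hf, by rw [q.hβ, a, hfe]; decide,
      by rw [q.hβ, b, q.β_self]; decide⟩
    exact (K.mul_mem_cancel_right h3).1 (h1 this)
  · have : g * (e * f) ∈ perp q W e f := ⟨W.mul_mem hg (W.mul_mem he hf),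
      by rw [q.hβ, q.hβ, a, hfe, q.β_self]; decide,
      by rw [q.hβ, q.hβ, b, hef, q.β_self]; decide⟩
    exact (K.mul_mem_cancel_right (K.mul_mem h2 h3)).1 (h1 this)

/-- elements orthogonal to `g` -/
def perp1 (q : QF P) (g : P) : Subgroup P where
  carrier := {h | q.β g h = 0}
  one_mem' := q.β_one' g
  mul_mem' := by
    intro a b ha hb
    change q.β g _ = 0 at ha hb ⊢
    rw [q.hβ', ha, hb, add_zero]
  inv_mem' := by
    intro a ha
    change q.β g _ = 0 at ha ⊢
    rw [q.β_inv', ha]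

theorem rad_perp_le (q : QF P) (W : Subgroup P) {e f : P} (he : e ∈ W) (hf : f ∈ W)
    (hef : q.β e f = 1) : q.rad (perp q W e f) ≤ q.rad W := by
  rintro g ⟨hg, h1, h2⟩
  refine ⟨hg.1, h1, fun h hh => ?_⟩
  exact perp_gen q W he hf hef (perp1 q g) (fun x hx => h2 x hx) hg.2.1 hg.2.2 hh

theorem aux_Clif [Finite P] (q : QF P) (n : ℕ) : ∀ (W : Subgroup P) (c : ZMod 2),
    Nat.card W = n →
    ∃ U F : Finset P, (∀ u ∈ U, u ∈ W ∧ q.Q u = c) ∧
      (∀ u ∈ U, ∀ v ∈ U, u ≠ v → q.β u v = 1) ∧ F.card ≤ 2 ∧ (∀ f ∈ F, f ∈ W) ∧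
      ∀ K : Subgroup P, q.rad W ≤ K → (∀ u ∈ U, u ∈ K) → (∀ u ∈ F, u ∈ K) → W ≤ K := by
  classical
  induction n using Nat.strong_induction_on with
  | _ n ih =>
  intro W c hn
  by_cases hA : ∃ w ∈ W, ∃ w' ∈ W, q.β w w' = 1 ∧ q.Q w = c ∧ q.Q w' = c
  · obtain ⟨w, hw, w', hw', hww, hc, hc'⟩ := hA
    have hw'w : q.β w' w = 1 := by rw [q.hsymm, hww]
    have hlt : Nat.card (perp q W w w') < n := by
      rw [← hn]
      by_contra hcon
      have e : perp q W w w' = W :=
        Subgroup.eq_of_le_of_card_ge (fun x hx => hx.1) (not_lt.1 hcon)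
      have : w ∈ perp q W w w' := e.symm ▸ hw
      rw [this.2.2] at hww
      exact absurd hww (by decide)
    obtain ⟨U, F, hU, hUU, hF, hFW, hgen⟩ := ih _ hlt (perp q W w w') (c + 1) rfl
    have b1 : ∀ u ∈ U, q.β w (w * w' * u) = 1 := by
      intro u hu
      rw [q.hβ', q.hβ', q.β_self, hww, q.hsymm, (hU u hu).1.2.1]
      decide
    have b2 : ∀ u ∈ U, q.β w' (w * w' * u) = 1 := by
      intro u hu
      rw [q.hβ', q.hβ', q.β_self, hw'w, q.hsymm, (hU u hu).1.2.2]
      decide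
    refine ⟨insert w (insert w' (U.image (fun u => w * w' * u))), F, ?_, ?_, hF,
      fun f hf => (hFW f hf).1, ?_⟩
    · intro u hu
      rcases Finset.mem_insert.1 hu with rfl | hu
      · exact ⟨hw, hc⟩
      rcases Finset.mem_insert.1 hu with rfl | hu
      · exact ⟨hw', hc'⟩
      obtain ⟨v, hv, rfl⟩ := Finset.mem_image.1 hu
      refine ⟨W.mul_mem (W.mul_mem hw hw') (hU v hv).1.1, ?_⟩
      rw [q.hQ, q.hQ, q.hβ, hc, hc', hww, (hU v hv).2, q.hsymm w v, q.hsymm w' v,
        (hU v hv).1.2.1, (hU v hv).1.2.2]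
      generalize c = a
      revert a
      decide
    · intro u hu v hv huv
      simp only [Finset.mem_insert, Finset.mem_image] at hu hv
      rcases hu with rfl | rfl | ⟨u, hu, rfl⟩ <;> rcases hv with rfl | rfl | ⟨v, hv, rfl⟩
      · exact (huv rfl).elim
      · exact hww
      · exact b1 v hv
      · exact hw'w
      · exact (huv rfl).elim
      · exact b2 v hv
      · rw [q.hsymm]
        exact b1 u hu
      · rw [q.hsymm]
        exact b2 u hu
      · rw [q.hβ, q.hβ, b1 v hv, b2 v hv, q.hβ', q.hβ', (hU u hu).1.2.1, (hU u hu).1.2.2,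
          hUU u hu v hv (fun e => huv (by rw [e]))]
        decide
    · intro K k1 k2 k3
      have hwK : w ∈ K := k2 w (by simp)
      have hwK' : w' ∈ K := k2 w' (by simp)
      refine perp_gen q W hw hw' hww K ?_ hwK hwK'
      refine hgen K ((rad_perp_le q W hw hw' hww).trans k1) (fun u hu => ?_) k3
      refine (K.mul_mem_cancel_left (K.mul_mem hwK hwK')).1 (k2 _ ?_)
      exact Finset.mem_insert_of_mem (Finset.mem_insert_of_mem (Finset.mem_image_of_mem _ hu))
  by_cases hB : ∃ e ∈ W, ∃ f ∈ W, q.β e f = 1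
  · obtain ⟨e, he, f, hf, hef⟩ := hB
    have h0 : ∀ g ∈ perp q W e f, q.Q g = 0 := by
      intro g hg
      by_contra hne
      have hg1 : q.Q g = 1 := (zmod2_Clif _).resolve_left hne
      have hge : q.β e g = 0 := by rw [q.hsymm, hg.2.1]
      have hgf : q.β f g = 0 := by rw [q.hsymm, hg.2.2]
      have flip : ∀ a : ZMod 2, a ≠ c → a + 1 + 0 = c := by
        generalize c = b
        revert b
        decide
      apply hA
      by_cases a : q.Q e = c <;> by_cases b : q.Q f = c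
      · exact ⟨e, he, f, hf, hef, a, b⟩
      · exact ⟨e, he, f * g, W.mul_mem hf hg.1, by rw [q.hβ', hef, hge, add_zero], a,
          by rw [q.hQ, hg1, hgf, flip _ b]⟩
      · exact ⟨e * g, W.mul_mem he hg.1, f, hf, by rw [q.hβ, hef, hg.2.2, add_zero],
          by rw [q.hQ, hg1, hge, flip _ a], b⟩
      · exact ⟨e * g, W.mul_mem he hg.1, f * g, W.mul_mem hf hg.1,
          by rw [q.hβ, q.hβ', q.hβ', hef, hge, hg.2.2, q.β_self]; decide,
          by rw [q.hQ, hg1, hge, flip _ a], by rw [q.hQ, hg1, hgf, flip _ b]⟩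
    refine ⟨∅, {e, f}, by simp, by simp, Finset.card_le_two, ?_, ?_⟩
    · intro x hx
      rcases Finset.mem_insert.1 hx with rfl | hx
      · exact he
      · rw [Finset.mem_singleton.1 hx]
        exact hf
    · intro K k1 _ k3
      refine perp_gen q W he hf hef K ?_ (k3 e (by simp)) (k3 f (by simp))
      refine le_trans ?_ ((rad_perp_le q W he hf hef).trans k1)
      intro g hg
      refine ⟨hg, h0 g hg, fun h hh => ?_⟩
      have := q.hQ g h
      rw [h0 g hg, h0 h hh, h0 _ (Subgroup.mul_mem _ hg hh)] at this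
      simpa using this.symm
  · have hβ0 : ∀ e ∈ W, ∀ f ∈ W, q.β e f = 0 := fun e he f hf =>
      (zmod2_Clif _).resolve_right (fun h => hB ⟨e, he, f, hf, h⟩)
    by_cases hC : ∃ f ∈ W, q.Q f = 1
    · obtain ⟨f, hf, hf1⟩ := hC
      refine ⟨∅, {f}, by simp, by simp, by simp, by simpa using hf, ?_⟩
      intro K k1 _ k3 x hx
      rcases zmod2_Clif (q.Q x) with h | h
      · exact k1 ⟨hx, h, hβ0 x hx⟩
      · have : f * x ∈ q.rad W := ⟨W.mul_mem hf hx, by rw [q.hQ, hf1, h, hβ0 f hf x hx]; decide,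
          hβ0 _ (W.mul_mem hf hx)⟩
        exact (K.mul_mem_cancel_left (k3 f (by simp))).1 (k1 this)
    · refine ⟨∅, ∅, by simp, by simp, by simp, by simp, ?_⟩
      intro K k1 _ _ x hx
      exact k1 ⟨hx, (zmod2_Clif _).resolve_right (fun h => hC ⟨x, hx, h⟩), hβ0 x hx⟩

theorem clif : S_Clif := by
  intro P _ _ q W c
  obtain ⟨U, F, h1, h2, h3, h4, h5⟩ := aux_Clif q _ W c rfl
  refine ⟨U, F, h1, h2, h3, h4, h5 _ ?_ ?_ ?_⟩
  · exact fun x hx => Subgroup.subset_closure (Or.inl (Or.inl hx))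
  · exact fun x hx => Subgroup.subset_closure (Or.inl (Or.inr hx))
  · exact fun x hx => Subgroup.subset_closure (Or.inr hx)

end Pool.Agent.MP_a1dcd4_co.OR

end

section

set_option autoImplicit false
namespace Pool.Agent.MP_a1dcd4_co.OR
open Function

section
open Finset Classical

variable {P : Type} [Group P] [Fintype P]

theorem comm_eq_Count (R : Subgroup P) :
    comm R = ∑ t ∈ univ.filter (· ∈ R), (univ.filter fun c => c ∈ R ∧ t * c = c * t).card := by
  have h1 : comm R = (univ.filter fun p : P × P =>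
      p.1 ∈ R ∧ p.2 ∈ R ∧ p.1 * p.2 = p.2 * p.1).card := by
    rw [← Fintype.card_subtype, ← Nat.card_eq_fintype_card, comm]
    exact Nat.card_congr
      { toFun := fun p => ⟨(p.1.1, p.1.2), p.1.1.2, p.1.2.2, congrArg Subtype.val p.2⟩
        invFun := fun p => ⟨(⟨p.1.1, p.2.1⟩, ⟨p.1.2, p.2.2.1⟩), Subtype.ext p.2.2.2⟩
        left_inv := fun _ => rfl
        right_inv := fun _ => rfl }
  rw [h1, card_filter, Fintype.sum_prod_type, sum_filter]
  refine sum_congr rfl fun t _ => ?_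
  by_cases ht : t ∈ R
  · simp only [ht, true_and, if_true, card_filter]
  · simp [ht]

theorem key_Count (R : Subgroup P) (a y : P) :
    (univ.filter fun r => r ∈ R ∧ a * (y * r) = (y * r) * a).card ≤
      (univ.filter fun c => c ∈ R ∧ a * c = c * a).card := by
  rcases (univ.filter fun r => r ∈ R ∧ a * (y * r) = (y * r) * a).eq_empty_or_nonempty with h | h
  · rw [h]; simp
  obtain ⟨r₀, h₀⟩ := h
  obtain ⟨h1, h2⟩ := (mem_filter.1 h₀).2
  refine card_le_card_of_injOn (fun r => r₀⁻¹ * r) (fun r hr => ?_) fun _ _ _ _ e =>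
    mul_left_cancel e
  obtain ⟨h3, h4⟩ := (mem_filter.1 (mem_coe.1 hr)).2
  refine mem_coe.2 (mem_filter.2 ⟨mem_univ _, R.mul_mem (R.inv_mem h1) h3, ?_⟩)
  have h5 : Commute a ((y * r₀)⁻¹ * (y * r)) :=
    (Commute.inv_right (h2 : Commute a (y * r₀))).mul_right h4
  have e : (y * r₀)⁻¹ * (y * r) = r₀⁻¹ * r := by group
  rw [e] at h5
  exact h5

theorem pair_Count (R : Subgroup P) (x y : P) :
    ∑ r ∈ univ.filter (· ∈ R), ∑ r' ∈ univ.filter (· ∈ R),
      (if (x * r) * (y * r') = (y * r') * (x * r) then 1 else 0) ≤ comm R := by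
  have hc : ∀ Q : P → Prop, (univ.filter fun c => c ∈ R ∧ Q c).card =
      ∑ c ∈ univ.filter (· ∈ R), if Q c then 1 else 0 := fun Q => by
    rw [← card_filter, filter_filter]
  calc _ ≤ ∑ r ∈ univ.filter (· ∈ R), ∑ c ∈ univ.filter (· ∈ R),
        (if c * (x * r) = (x * r) * c then 1 else 0) := by
        refine sum_le_sum fun r _ => ?_
        have := key_Count R (x * r) y
        rw [hc, hc] at this
        refine this.trans (le_of_eq (sum_congr rfl fun c _ => if_congr eq_comm rfl rfl))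
    _ ≤ comm R := by
        rw [sum_comm, comm_eq_Count]
        refine sum_le_sum fun c _ => ?_
        have := key_Count R c x
        rwa [hc] at this

theorem half_Count (φ : P → ZMod 2) (hφ : ∀ g h, φ (g * h) = φ g + φ h) {f : P} (hf : φ f = 1) :
    2 * (univ.filter fun h => φ h = 0).card = Fintype.card P ∧
      2 * (univ.filter fun h => ¬ φ h = 0).card = Fintype.card P := by
  have h1 : (univ.filter fun h => φ h = 0).card = (univ.filter fun h => ¬ φ h = 0).card := by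
    refine card_equiv (Equiv.mulRight f) fun h => ?_
    simp only [mem_filter, mem_univ, true_and, Equiv.coe_mulRight, hφ, hf]
    generalize φ h = a
    revert a
    decide
  have h2 := card_filter_add_card_filter_not (s := (univ : Finset P)) (fun h => φ h = 0)
  rw [card_univ] at h2
  omega

theorem fibre_Count (R : Subgroup P) (x t : P) :
    (univ.filter fun h => (h ∈ R ∧ (x * h) ^ 2 = 1) ∧ (x * (h * t)) ^ 2 = 1).card ≤
      (univ.filter fun c => c ∈ R ∧ t * c = c * t).card := by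
  have hinv : ∀ h, (x * h) ^ 2 = 1 → (x * (h * t)) ^ 2 = 1 → (x * h) * t = t⁻¹ * (x * h) := by
    intro h h1 h2
    rw [← mul_assoc] at h2
    generalize x * h = a at h1 h2
    have e1 : a⁻¹ = a := inv_eq_of_mul_eq_one_right (by rw [← sq, h1])
    have e2 : (a * t)⁻¹ = a * t := inv_eq_of_mul_eq_one_right (by rw [← sq, h2])
    rw [← e2, mul_inv_rev, e1]
  rcases (univ.filter fun h => (h ∈ R ∧ (x * h) ^ 2 = 1) ∧
    (x * (h * t)) ^ 2 = 1).eq_empty_or_nonempty with h | h
  · rw [h]; simp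
  obtain ⟨h₀, hh₀⟩ := h
  obtain ⟨⟨h1, h2⟩, h3⟩ := (mem_filter.1 hh₀).2
  refine card_le_card_of_injOn (fun h => h₀⁻¹ * h) (fun h hh => ?_) fun _ _ _ _ e =>
    mul_left_cancel e
  obtain ⟨⟨h4, h5⟩, h6⟩ := (mem_filter.1 (mem_coe.1 hh)).2
  refine mem_coe.2 (mem_filter.2 ⟨mem_univ _, R.mul_mem (R.inv_mem h1) h4, ?_⟩)
  have e : h₀⁻¹ * h = (x * h₀)⁻¹ * (x * h) := by group
  have e1 := hinv h₀ h2 h3
  have e2 := hinv h h5 h6
  simp only [e]
  generalize x * h₀ = a at e1
  generalize x * h = b at e2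
  have e3 : t * a⁻¹ = a⁻¹ * t⁻¹ := by
    rw [eq_inv_mul_iff_mul_eq, ← mul_assoc, e1, mul_inv_cancel_right]
  rw [mul_assoc a⁻¹, e2, ← mul_assoc, ← mul_assoc, e3]

end

theorem countA : S_CountA := by
  classical
  intro P _ _ R B hB
  have := Fintype.ofFinite P
  have h1 : Nat.card R = (Finset.univ.filter (· ∈ R)).card := by
    rw [Nat.card_eq_fintype_card, Fintype.card_subtype]
  have h2 : ∀ r r' : P, comm P = ∑ p : P × P,
      if (p.1 * r) * (p.2 * r') = (p.2 * r') * (p.1 * r) then 1 else 0 := by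
    intro r r'
    rw [comm, Nat.card_eq_fintype_card, Fintype.card_subtype, Finset.card_filter]
    exact (Equiv.sum_comp ((Equiv.mulRight r).prodCongr (Equiv.mulRight r'))
      (fun p : P × P => if p.1 * p.2 = p.2 * p.1 then 1 else 0)).symm
  have h3 : Nat.card R ^ 2 * comm P = ∑ p : P × P, ∑ r ∈ Finset.univ.filter (· ∈ R),
      ∑ r' ∈ Finset.univ.filter (· ∈ R),
        if (p.1 * r) * (p.2 * r') = (p.2 * r') * (p.1 * r) then 1 else 0 := by
    rw [Finset.sum_comm]
    rw [Finset.sum_congr rfl fun r _ => Finset.sum_comm]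
    simp only [← h2, Finset.sum_const, smul_eq_mul, h1]
    ring
  have h4 : B.ncard * comm R = ∑ p : P × P, if p ∈ B then comm R else 0 := by
    rw [← Finset.sum_filter, Finset.sum_const, smul_eq_mul, Set.ncard_eq_toFinset_card' B]
    simp [Set.toFinset]
  rw [h3, h4]
  refine Finset.sum_le_sum fun p _ => ?_
  split_ifs with hp
  · exact pair_Count R p.1 p.2
  · refine le_of_eq (Finset.sum_eq_zero fun r hr => Finset.sum_eq_zero fun r' hr' => if_neg ?_)
    exact fun e => hp (hB p.1 p.2 r (Finset.mem_filter.1 hr).2 r' (Finset.mem_filter.1 hr').2 e)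

theorem countB : S_CountB := by
  classical
  rintro P _ _ q ⟨e, f, hef⟩
  have := Fintype.ofFinite P
  have h1 : {p : P × P | q.β p.1 p.2 = 0}.ncard =
      ∑ g, (Finset.univ.filter fun h => q.β g h = 0).card := by
    rw [Set.ncard_eq_toFinset_card', Set.toFinset_ofPred, Finset.card_filter,
      Fintype.sum_prod_type]
    simp only [Finset.card_filter]
  obtain ⟨h2, h3⟩ := half_Count (fun g => q.β g f) (fun g h => q.hβ g h f) hef
  have h4 : ∑ g ∈ Finset.univ.filter (fun g => q.β g f = 0),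
      (Finset.univ.filter fun h => q.β g h = 0).card ≤
        (Finset.univ.filter fun g => q.β g f = 0).card * Fintype.card P :=
    Finset.sum_le_card_nsmul _ _ _ fun g _ => Finset.card_le_univ _
  have h5 : 2 * ∑ g ∈ Finset.univ.filter (fun g => ¬ q.β g f = 0),
      (Finset.univ.filter fun h => q.β g h = 0).card =
        (Finset.univ.filter fun g => ¬ q.β g f = 0).card * Fintype.card P := by
    rw [Finset.mul_sum, ← smul_eq_mul, ← Finset.sum_const]
    refine Finset.sum_congr rfl fun g hg => ?_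
    have h6 : ∀ a : ZMod 2, ¬ a = 0 → a = 1 := by decide
    exact (half_Count (q.β g) (fun a b => q.hβ' a b g) (h6 _ (Finset.mem_filter.1 hg).2)).1
  rw [h1, ← Finset.sum_filter_add_sum_filter_not Finset.univ (fun g => q.β g f = 0),
    Nat.card_eq_fintype_card]
  nlinarith

theorem countC : S_CountC := by
  classical
  intro P _ _ R x
  have := Fintype.ofFinite P
  rw [Set.ncard_eq_toFinset_card', Set.toFinset_ofPred, comm_eq_Count]
  refine le_trans ?_ (Finset.sum_le_sum fun t _ => fibre_Count R x t)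
  simp only [← Finset.filter_filter (s := Finset.univ) (fun h => h ∈ R ∧ (x * h) ^ 2 = 1)]
  simp only [Finset.card_filter (fun h => (x * (h * _)) ^ 2 = 1)]
  rw [Finset.sum_comm, sq, ← smul_eq_mul, ← Finset.sum_const]
  refine Finset.sum_le_sum fun h hh => ?_
  rw [← Finset.card_filter]
  have h1 := (Finset.mem_filter.1 hh).2.1
  refine Finset.card_le_card_of_injOn (fun k => h⁻¹ * k) (fun k hk => ?_) fun _ _ _ _ e =>
    mul_left_cancel e
  obtain ⟨h2, h3⟩ := (Finset.mem_filter.1 (Finset.mem_coe.1 hk)).2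
  refine Finset.mem_coe.2 (Finset.mem_filter.2 ⟨Finset.mem_filter.2
    ⟨Finset.mem_univ _, R.mul_mem (R.inv_mem h1) h2⟩, ?_⟩)
  rwa [mul_inv_cancel_left]

end Pool.Agent.MP_a1dcd4_co.OR

end

section

set_option autoImplicit false

namespace Pool.Agent.MP_a1dcd4_co.OR

open Function

theorem num_Add (j : ℕ) : (2 * j + 1) ^ 2 * 3 ^ j < 36 * 4 ^ j := by
  rcases Nat.lt_or_ge j 7 with h | h
  · interval_cases j <;> norm_num
  · induction j, h using Nat.le_induction with
    | base => norm_num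
    | succ j hj ih =>
      have h1 : 3 * (2 * (j + 1) + 1) ^ 2 ≤ 4 * (2 * j + 1) ^ 2 := by nlinarith
      calc (2 * (j + 1) + 1) ^ 2 * 3 ^ (j + 1)
          = 3 * (2 * (j + 1) + 1) ^ 2 * 3 ^ j := by ring
        _ ≤ 4 * (2 * j + 1) ^ 2 * 3 ^ j := Nat.mul_le_mul_right _ h1
        _ = 4 * ((2 * j + 1) ^ 2 * 3 ^ j) := by ring
        _ < 4 * (36 * 4 ^ j) := by omega
        _ = 36 * 4 ^ (j + 1) := by ring

theorem symm_Add {P : Type} [Group P] {x y : P} (h : (x⁻¹ * y) ^ 2 = 1) : (y⁻¹ * x) ^ 2 = 1 := by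
  have e : y⁻¹ * x = (x⁻¹ * y)⁻¹ := by group
  rw [e, inv_pow, h, inv_one]

theorem add (h : S_CountC) : S_Add := by
  classical
  intro P _ _ R j L f hc hL hF
  obtain ⟨i, -, hi⟩ := Finset.exists_min_image Finset.univ (fun i => (L i).card)
    Finset.univ_nonempty
  have h6 : 6 * (L i).card ≤ 2 * j + 1 := by
    have h1 : ∑ _k : Fin 6, (L i).card ≤ ∑ k, (L k).card :=
      Finset.sum_le_sum fun k hk => hi k hk
    simp only [Finset.sum_const, Finset.card_univ, Fintype.card_fin, smul_eq_mul] at h1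
    omega
  set m := Nat.sqrt (comm R) with hm
  have hm2 : m ^ 2 ≤ comm R := Nat.sqrt_le' _
  have hR : 0 < Nat.card R := Nat.card_pos
  have hlt : (L i).card * m < Nat.card R := by
    by_contra hge
    push Not at hge
    have a1 : Nat.card R ^ 2 ≤ ((L i).card * m) ^ 2 := Nat.pow_le_pow_left hge 2
    have a2 : (6 * (L i).card) ^ 2 ≤ (2 * j + 1) ^ 2 := Nat.pow_le_pow_left h6 2
    have a3 := num_Add j
    have a4 : 0 < Nat.card R ^ 2 := by positivity
    have a5 : 36 * 4 ^ j * Nat.card R ^ 2 ≤ (2 * j + 1) ^ 2 * 3 ^ j * Nat.card R ^ 2 := by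
      calc 36 * 4 ^ j * Nat.card R ^ 2 ≤ 36 * 4 ^ j * ((L i).card * m) ^ 2 :=
            Nat.mul_le_mul_left _ a1
        _ = (6 * (L i).card) ^ 2 * (m ^ 2 * 4 ^ j) := by ring
        _ ≤ (2 * j + 1) ^ 2 * (comm R * 4 ^ j) :=
            Nat.mul_le_mul a2 (Nat.mul_le_mul_right _ hm2)
        _ ≤ (2 * j + 1) ^ 2 * (3 ^ j * Nat.card R ^ 2) := Nat.mul_le_mul_left _ hc
        _ = (2 * j + 1) ^ 2 * 3 ^ j * Nat.card R ^ 2 := by ring
    exact absurd (Nat.mul_lt_mul_of_pos_right a3 a4) (not_lt.2 a5)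
  have hex : ∃ g ∈ R, ∀ u ∈ L i, (u⁻¹ * (f * g)) ^ 2 ≠ 1 := by
    by_contra hno
    push Not at hno
    have : Fintype P := Fintype.ofFinite P
    have hsub : (Finset.univ.filter fun g : P => g ∈ R) ⊆
        (L i).biUnion fun u => Finset.univ.filter fun g : P => g ∈ R ∧ (u⁻¹ * f * g) ^ 2 = 1 := by
      intro g hg
      have hg' : g ∈ R := by simpa using hg
      obtain ⟨u, hu, e⟩ := hno g hg'
      refine Finset.mem_biUnion.2 ⟨u, hu, ?_⟩
      simp only [Finset.mem_filter, Finset.mem_univ, true_and]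
      exact ⟨hg', by rw [mul_assoc]; exact e⟩
    have h1 : (Finset.univ.filter fun g : P => g ∈ R).card = Nat.card R := by
      rw [Nat.card_eq_fintype_card, Fintype.card_subtype]
    have h2 := (Finset.card_le_card hsub).trans (Finset.card_biUnion_le_card_mul _ _ m (by
      intro u _
      have h3 := h P R (u⁻¹ * f)
      have h4 : {g : P | g ∈ R ∧ (u⁻¹ * f * g) ^ 2 = 1}.ncard =
          (Finset.univ.filter fun g : P => g ∈ R ∧ (u⁻¹ * f * g) ^ 2 = 1).card := by
        rw [← Set.ncard_coe_finset]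
        congr 1
        ext g
        simp
      rw [h4] at h3
      exact Nat.le_sqrt'.2 h3))
    omega
  obtain ⟨g, hg, hgood⟩ := hex
  refine ⟨update L i (insert (f * g) (L i)), ?_, ?_, ?_, g, hg, i, by simp⟩
  · have h1 : ∀ k, (update L i (insert (f * g) (L i)) k).card ≤
        (L k).card + if k = i then 1 else 0 := by
      intro k
      by_cases hk : k = i
      · subst hk
        simpa using Finset.card_insert_le _ _
      · simp [hk]
    refine (Finset.sum_le_sum fun k _ => h1 k).trans ?_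
    rw [Finset.sum_add_distrib]
    simp
  · intro k
    by_cases hk : k = i
    · subst hk
      rw [update_self]
      intro x hx y hy hxy
      simp only [Finset.coe_insert, Set.mem_insert_iff, Finset.mem_coe] at hx hy
      rcases hx with rfl | hx
      · rcases hy with rfl | hy
        · exact absurd rfl hxy
        · exact fun e => hgood y hy (symm_Add e)
      · rcases hy with rfl | hy
        · exact hgood x hx
        · exact hF k x hx y hy hxy
    · rw [update_of_ne hk]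
      exact hF k
  · intro k
    by_cases hk : k = i
    · subst hk
      rw [update_self]
      exact Finset.subset_insert _ _
    · rw [update_of_ne hk]

end Pool.Agent.MP_a1dcd4_co.OR

end

section

/-!
Generation of a finite 2-group by an elementary abelian subgroup and seven conflict-free sets.
-/

set_option autoImplicit false

namespace Pool.Agent.MP_a1dcd4_co.OR

open Function

theorem CFree.map_TwoGen {P : Type} [Group P] (R : Subgroup P) {U : Finset R}
    (h : CFree (U : Set R)) : CFree (U.map (Embedding.subtype (· ∈ R)) : Set P) := by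
  intro x hx y hy hxy e
  obtain ⟨a, ha, rfl⟩ := Finset.mem_map.1 hx
  obtain ⟨b, hb, rfl⟩ := Finset.mem_map.1 hy
  exact h a ha b hb (fun e' => hxy (by rw [e'])) (Subtype.ext e)

theorem zmod2_TwoGen (a : ZMod 2) : a = 0 ∨ a = 1 := by
  revert a
  decide

theorem cfree_union_TwoGen {P : Type} [Group P] (q : QF P) {A B : Set P} (hA : CFree A)
    (hAR : ∀ a ∈ A, a ∈ q.rad ⊤) (hB : ∀ u ∈ B, q.Q u = 1)
    (hBB : ∀ u ∈ B, ∀ v ∈ B, u ≠ v → q.β u v = 1) : CFree (A ∪ B) := by
  intro x hx y hy hxy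
  rcases hx with hx | hx <;> rcases hy with hy | hy
  · exact hA x hx y hy hxy
  · apply q.sq_ne_one
    rw [(hAR x hx).2.1, hB y hy, (hAR x hx).2.2 y trivial]
    decide
  · apply q.sq_ne_one
    rw [(hAR y hy).2.1, hB x hx, q.hsymm, (hAR y hy).2.2 x trivial]
    decide
  · apply q.sq_ne_one
    rw [hB x hx, hB y hy, hBB x hx y hy hxy]
    decide

theorem aux_TwoGen (h1 : S_QF) (h2 : S_Clif) (h3 : S_CountA) (h4 : S_CountB) (h5 : S_Add)
    (n : ℕ) : ∀ (P : Type) [Group P] [Finite P], Nat.card P = n → IsPGroup 2 P →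
      ∃ (j : ℕ) (E : Subgroup P) (U : Finset P) (L : Fin 6 → Finset P), (∀ x ∈ E, x ^ 2 = 1) ∧
        CFree (U : Set P) ∧ (∀ i, CFree (L i : Set P)) ∧ ∑ i, (L i).card ≤ 2 * j ∧
        comm P * 4 ^ j ≤ 3 ^ j * Nat.card P ^ 2 ∧
        ∀ K : Subgroup P, E ≤ K → (∀ u ∈ U, u ∈ K) → (∀ i, ∀ u ∈ L i, u ∈ K) → K = ⊤ := by
  classical
  induction n using Nat.strong_induction_on with
  | _ n ih =>
  intro P _ _ hn hP
  by_cases hsq : ∃ x : P, x ^ 2 ≠ 1
  swap
  · push Not at hsq
    refine ⟨0, ⊤, ∅, fun _ => ∅, fun x _ => hsq x, by simp [CFree], by simp [CFree], by simp, ?_,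
      fun K hK _ _ => top_le_iff.1 hK⟩
    simp only [pow_zero, mul_one, one_mul, comm]
    rw [pow_two, ← Nat.card_prod]
    exact Finite.card_subtype_le _
  obtain ⟨q, g0, hg0⟩ := h1 P hP hsq
  set R : Subgroup P := q.rad ⊤ with hR
  have hRlt : Nat.card R < n := by
    rw [← hn]
    have hne : R ≠ ⊤ := by
      intro e
      have : g0 ∈ R := e ▸ Subgroup.mem_top g0
      rw [this.2.1] at hg0
      exact absurd hg0 (by decide)
    by_contra hc
    exact hne (Subgroup.eq_top_of_le_card R (not_lt.1 hc))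
  obtain ⟨j, E, U, L, hE, hU, hL, hsum, hcomm, hgen⟩ := ih _ hRlt R rfl (hP.to_subgroup R)
  have hRpos : 0 < Nat.card R ^ 2 := pow_pos Nat.card_pos 2
  let ι : R ↪ P := Embedding.subtype (· ∈ R)
  have hE' : ∀ x ∈ E.map R.subtype, x ^ 2 = 1 := by
    rintro _ ⟨x, hx, rfl⟩
    exact congrArg Subtype.val (hE x hx)
  have hUR : ∀ a ∈ (U.map ι : Set P), a ∈ q.rad ⊤ := by
    intro a ha
    obtain ⟨b, -, rfl⟩ := Finset.mem_map.1 ha
    exact b.2
  have hgen' : ∀ K : Subgroup P, E.map R.subtype ≤ K → (∀ u ∈ U.map ι, u ∈ K) →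
      (∀ i, ∀ u ∈ (L i).map ι, u ∈ K) → R ≤ K := by
    intro K a b c x hx
    have := hgen (K.comap R.subtype) (Subgroup.map_le_iff_le_comap.1 a)
      (fun u hu => b _ (Finset.mem_map_of_mem ι hu))
      (fun i u hu => c i _ (Finset.mem_map_of_mem ι hu))
    have hx' : (⟨x, hx⟩ : R) ∈ K.comap R.subtype := this ▸ Subgroup.mem_top _
    exact hx'
  have hsum' : ∑ i, ((L i).map ι).card ≤ 2 * j := by simpa using hsum
  by_cases hβ : ∃ e f, q.β e f = 1
  · obtain ⟨V, F, hV, hVV, hF, -, hW⟩ := h2 P q ⊤ 1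
    obtain ⟨e, f, hef⟩ : ∃ e f : P, ∀ x ∈ F, x = e ∨ x = f := by
      have : F.card = 0 ∨ F.card = 1 ∨ F.card = 2 := by omega
      rcases this with h | h | h
      · rw [Finset.card_eq_zero] at h
        exact ⟨1, 1, by simp [h]⟩
      · obtain ⟨a, rfl⟩ := Finset.card_eq_one.1 h
        exact ⟨a, a, by simp⟩
      · obtain ⟨a, b, -, rfl⟩ := Finset.card_eq_two.1 h
        exact ⟨a, b, by simp⟩
    obtain ⟨L1, s1, c1, i1, r1, hr1, k1, m1⟩ := h5 P R j (fun i => (L i).map ι) e hcomm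
      (by omega) (fun i => (hL i).map_TwoGen R)
    obtain ⟨L2, s2, c2, i2, r2, hr2, k2, m2⟩ := h5 P R j L1 f hcomm (by omega) c1
    refine ⟨j + 1, E.map R.subtype, U.map ι ∪ V, L2, hE', ?_, c2, by omega, ?_, ?_⟩
    · rw [Finset.coe_union]
      exact cfree_union_TwoGen q (hU.map_TwoGen R) hUR (fun u hu => (hV u hu).2) hVV
    · have a1 := h3 P R {p : P × P | q.β p.1 p.2 = 0} (by
        intro x y r hr r' hr' e
        have := q.hcomm _ _ e
        rw [q.hβ, q.hβ', q.hβ', hr.2.2 y trivial, hr.2.2 r' trivial, q.hsymm x r',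
          hr'.2.2 x trivial] at this
        simpa using this)
      have a2 := h4 P q hβ
      refine Nat.le_of_mul_le_mul_left ?_ hRpos
      calc Nat.card R ^ 2 * (comm P * 4 ^ (j + 1))
          = (Nat.card R ^ 2 * comm P) * 4 * 4 ^ j := by ring
        _ ≤ ({p : P × P | q.β p.1 p.2 = 0}.ncard * comm R) * 4 * 4 ^ j := by gcongr
        _ = (4 * {p : P × P | q.β p.1 p.2 = 0}.ncard) * (comm R * 4 ^ j) := by ring
        _ ≤ (3 * Nat.card P ^ 2) * (3 ^ j * Nat.card R ^ 2) := by gcongr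
        _ = Nat.card R ^ 2 * (3 ^ (j + 1) * Nat.card P ^ 2) := by ring
    · intro K a b c
      have hRK : R ≤ K := hgen' K a (fun u hu => b u (Finset.mem_union_left _ hu))
        (fun i u hu => c i u (i2 i (i1 i hu)))
      rw [eq_top_iff]
      refine hW.trans ?_
      rw [Subgroup.closure_le]
      rintro x ((hx | hx) | hx)
      · exact hRK hx
      · exact b x (Finset.mem_union_right _ hx)
      · rcases hef x hx with rfl | rfl
        · exact (K.mul_mem_cancel_right (hRK hr1)).1 (c k1 _ (i2 k1 m1))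
        · exact (K.mul_mem_cancel_right (hRK hr2)).1 (c k2 _ m2)
  · have hβ0 : ∀ e f, q.β e f = 0 := fun e f =>
      (zmod2_TwoGen _).resolve_right (fun h => hβ ⟨e, f, h⟩)
    refine ⟨j, E.map R.subtype, U.map ι ∪ {g0}, fun i => (L i).map ι, hE', ?_,
      fun i => (hL i).map_TwoGen R, hsum', ?_, ?_⟩
    · rw [Finset.coe_union]
      refine cfree_union_TwoGen q (hU.map_TwoGen R) hUR ?_ ?_
      · intro u hu
        rw [Finset.mem_singleton.1 hu, hg0]
      · intro u hu v hv huv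
        exact (huv ((Finset.mem_singleton.1 hu).trans (Finset.mem_singleton.1 hv).symm)).elim
    · have a1 := h3 P R Set.univ (fun _ _ _ _ _ _ _ => trivial)
      rw [Set.ncard_univ, Nat.card_prod, ← pow_two] at a1
      refine Nat.le_of_mul_le_mul_left ?_ hRpos
      calc Nat.card R ^ 2 * (comm P * 4 ^ j)
          = (Nat.card R ^ 2 * comm P) * 4 ^ j := by ring
        _ ≤ (Nat.card P ^ 2 * comm R) * 4 ^ j := by gcongr
        _ = Nat.card P ^ 2 * (comm R * 4 ^ j) := by ring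
        _ ≤ Nat.card P ^ 2 * (3 ^ j * Nat.card R ^ 2) := by gcongr
        _ = Nat.card R ^ 2 * (3 ^ j * Nat.card P ^ 2) := by ring
    · intro K a b c
      have hRK : R ≤ K := hgen' K a (fun u hu => b u (Finset.mem_union_left _ hu)) c
      have hg : g0 ∈ K := b g0 (Finset.mem_union_right _ (Finset.mem_singleton_self _))
      rw [eq_top_iff]
      intro x _
      rcases zmod2_TwoGen (q.Q x) with h | h
      · exact hRK ⟨trivial, h, fun y _ => hβ0 x y⟩
      · have : g0 * x ∈ R := ⟨trivial, by rw [q.hQ, hg0, h, hβ0]; decide, fun y _ => hβ0 _ y⟩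
        exact (K.mul_mem_cancel_left hg).1 (hRK this)

theorem twoGen (h1 : S_QF) (h2 : S_Clif) (h3 : S_CountA) (h4 : S_CountB) (h5 : S_Add) :
    S_TwoGen := by
  intro P _ _ hP
  obtain ⟨j, E, U, L, hE, hU, hL, -, -, hgen⟩ := aux_TwoGen h1 h2 h3 h4 h5 _ P rfl hP
  refine ⟨E, Fin.cons U L, hE, ?_, ?_⟩
  · intro i
    refine Fin.cases ?_ (fun i => ?_) i
    · exact hU
    · exact hL i
  · apply hgen
    · exact fun x hx => Subgroup.subset_closure (Or.inl hx)
    · exact fun u hu => Subgroup.subset_closure (Or.inr (Set.mem_iUnion.2 ⟨0, hu⟩))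
    · exact fun i u hu => Subgroup.subset_closure (Or.inr (Set.mem_iUnion.2 ⟨i.succ, hu⟩))

end Pool.Agent.MP_a1dcd4_co.OR

end

section

set_option autoImplicit false
namespace Pool.Agent.MP_a1dcd4_co.OR
open Function

theorem conj_pow_Ext {G : Type} [Group G] (s a : G) (h : s * a * s⁻¹ = a⁻¹) (n : ℕ) :
    s ^ (2 * n + 1) * a * (s ^ (2 * n + 1))⁻¹ = a⁻¹ := by
  have h2 : s * a⁻¹ * s⁻¹ = a := by
    have : s * a⁻¹ * s⁻¹ = (s * a * s⁻¹)⁻¹ := by group
    rw [this, h, inv_inv]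
  induction n with
  | zero => simpa using h
  | succ n ih =>
    have e : s ^ (2 * (n + 1) + 1) * a * (s ^ (2 * (n + 1) + 1))⁻¹
        = s * (s * (s ^ (2 * n + 1) * a * (s ^ (2 * n + 1))⁻¹) * s⁻¹) * s⁻¹ := by
      have : 2 * (n + 1) + 1 = (2 * n + 1) + 1 + 1 := by ring
      rw [this, pow_succ', pow_succ']
      group
    rw [e, ih, h2, h]

theorem uniq_Ext {G : Type} [Group G] (A : Subgroup G) (s z z' : G) (hs : Odd (orderOf s))
    (hc : ∀ a ∈ A, ∀ b ∈ A, a * b = b * a) (ho : ∀ a ∈ A, Odd (orderOf a))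
    (hz : z ∈ A) (hz' : z' ∈ A) (e : z * s⁻¹ * z = z' * s⁻¹ * z') : z = z' := by
  set a := z'⁻¹ * z with ha
  have haA : a ∈ A := A.mul_mem (A.inv_mem hz') hz
  have c1 : z' * z⁻¹ = z⁻¹ * z' := hc _ hz' _ (A.inv_mem hz)
  have h1 : s * a * s⁻¹ = a⁻¹ := by
    have e1 : s * a * s⁻¹ = s * z'⁻¹ * (z * s⁻¹ * z) * z⁻¹ := by rw [ha]; group
    rw [e1, e, ha]
    have : s * z'⁻¹ * (z' * s⁻¹ * z') * z⁻¹ = z' * z⁻¹ := by group
    rw [this, c1]; group
  obtain ⟨n, hn⟩ := hs
  have h2 := conj_pow_Ext s a h1 n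
  rw [← hn, pow_orderOf_eq_one] at h2
  have h3 : a ^ 2 = 1 := by
    have : a = a⁻¹ := by simpa using h2
    rw [sq]; nth_rewrite 1 [this]; simp
  obtain ⟨m, hm⟩ := ho a haA
  have h4 : a = 1 := by
    have h5 := pow_orderOf_eq_one a
    rw [hm, pow_succ, pow_mul, h3] at h5
    simpa using h5
  have : z' * a = z := by rw [ha]; group
  rw [← this, h4, mul_one]

theorem ext_sidon : S_Ext := by
  intro G _ _ S A hS hodd hc ho
  classical
  letI : Fintype G := Fintype.ofFinite G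
  let B1 : Finset G := (S ×ˢ S ×ˢ S).image (fun p => p.1 * p.2.1⁻¹ * p.2.2)
  let B2 : Finset G := (S ×ˢ S).biUnion
    (fun p => Finset.univ.filter (fun z => z ∈ A ∧ z * p.1⁻¹ * z = p.2))
  have hB1 : B1.card ≤ S.card ^ 3 := by
    refine Finset.card_image_le.trans ?_
    simp only [Finset.card_product]
    exact le_of_eq (by ring)
  have hB2 : B2.card ≤ S.card ^ 3 := by
    have h1 : B2.card ≤ (S ×ˢ S).card * 1 := by
      refine Finset.card_biUnion_le_card_mul _ _ _ ?_
      intro p hp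
      rw [Finset.card_le_one]
      intro z hz z' hz'
      simp only [Finset.mem_filter, Finset.mem_univ, true_and] at hz hz'
      exact uniq_Ext A p.1 z z' (hodd _ (Finset.mem_product.1 hp).1) hc ho hz.1 hz'.1
        (hz.2.trans hz'.2.symm)
    rw [Finset.card_product, mul_one] at h1
    refine h1.trans ?_
    rcases Nat.eq_zero_or_pos S.card with h0 | h0
    · simp [h0]
    · calc S.card * S.card = S.card ^ 2 := by ring
        _ ≤ S.card ^ 3 := Nat.pow_le_pow_right h0 (by norm_num)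
  refine ⟨B1 ∪ B2, (Finset.card_union_le _ _).trans (by omega), ?_⟩
  intro z hzA hzB
  have n1 : ∀ a ∈ S, ∀ b ∈ S, ∀ c ∈ S, z ≠ a * b⁻¹ * c := by
    intro a ha b hb c hc' e
    apply hzB
    refine Finset.mem_union_left _ (Finset.mem_image.2 ⟨(a, b, c), ?_, e.symm⟩)
    simp [ha, hb, hc']
  have n2 : ∀ a ∈ S, ∀ b ∈ S, z * a⁻¹ * z ≠ b := by
    intro a ha b hb e
    apply hzB
    refine Finset.mem_union_right _ (Finset.mem_biUnion.2 ⟨(a, b), ?_, ?_⟩)
    · simp [ha, hb]
    · simp [hzA, e]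
  refine ⟨fun h => n1 z h z h z h (by group), ?_⟩
  intro s hs t ht s' hs' t' ht' e
  simp only [Set.mem_insert_iff, Finset.mem_coe] at hs ht hs' ht'
  have e1 : s = t * t'⁻¹ * s' := by
    have : t * t'⁻¹ * s' = s * (s⁻¹ * t) * t'⁻¹ * s' := by group
    rw [this]
    have h2 : t = s * (s⁻¹ * t) := by group
    calc s = t * (s⁻¹ * t)⁻¹ := by group
      _ = t * (s'⁻¹ * t')⁻¹ := by rw [e]
      _ = s * (s⁻¹ * t) * t'⁻¹ * s' := by group
  have e2 : t = s * s'⁻¹ * t' := by
    calc t = s * (s⁻¹ * t) := by group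
      _ = s * (s'⁻¹ * t') := by rw [e]
      _ = s * s'⁻¹ * t' := by group
  have e3 : s' = t' * t⁻¹ * s := by
    calc s' = t' * (s'⁻¹ * t')⁻¹ := by group
      _ = t' * (s⁻¹ * t)⁻¹ := by rw [e]
      _ = t' * t⁻¹ * s := by group
  have e4 : t' = s' * s⁻¹ * t := by
    calc t' = s' * (s'⁻¹ * t') := by group
      _ = s' * (s⁻¹ * t) := by rw [e]
      _ = s' * s⁻¹ * t := by group
  by_cases c1 : s = t
  · left; rw [c1]; group
  by_cases c2 : s = s'
  · right; exact c2
  by_cases c3 : t = t'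
  · right
    rw [e1, c3]; group
  by_cases c4 : s' = t'
  · left; rw [e, c4]; group
  rcases hs with hs | hs
  · have ht2 : t ∈ S := ht.resolve_left (fun h => c1 (hs.trans h.symm))
    have hs2 : s' ∈ S := hs'.resolve_left (fun h => c2 (hs.trans h.symm))
    rcases ht' with ht' | ht'
    · exact absurd (by rw [e2, hs, ht']) (n2 s' hs2 t ht2)
    · exact absurd (hs.symm.trans e1) (n1 t ht2 t' ht' s' hs2)
  rcases ht with ht | ht
  · have ht2 : t' ∈ S := ht'.resolve_left (fun h => c3 (ht.trans h.symm))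
    rcases hs' with hs' | hs'
    · exact absurd (by rw [e4, hs', ht]) (n2 s hs t' ht2)
    · exact absurd (ht.symm.trans e2) (n1 s hs s' hs' t' ht2)
  rcases hs' with hs' | hs'
  · have ht2 : t' ∈ S := ht'.resolve_left (fun h => c4 (hs'.trans h.symm))
    exact absurd (hs'.symm.trans e3) (n1 t' ht2 t ht s hs)
  rcases ht' with ht' | ht'
  · exact absurd (ht'.symm.trans e4) (n1 s' hs' s hs t ht)
  · exact hS s hs t ht s' hs' t' ht' e

end Pool.Agent.MP_a1dcd4_co.OR

end
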