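import Mathlib
import Pool.Agent.Mg.Fa1dcd4.Gc4ba1c

section

/-!
Lattices built from coloured point-line geometries.

`V` carries a relation `r` (point `u` lies on line `v`) and a colouring `c`.  Every vertex `v` is
replaced by a chain of `c v + 1` elements, and a bottom and a top element are added.
-/

set_option autoImplicit false

namespace Pool.Agent.MP_a1dcd4_co

structure Geo (V : Type) where
  r : V → V → Prop
  c : V → ℕ
  h2 : ∀ u v w, r u v → r v w → False
  hlin : ∀ x y l m, r x l → r y l → r x m → r y m → x = y ∨ l = m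
  hline : ∀ x l, r x l → ∃ y, y ≠ x ∧ r y l

variable {V : Type}

inductive El (Γ : Geo V) : Type
  | bot : El Γ
  | top : El Γ
  | mid (v : V) (k : ℕ) (h : k ≤ Γ.c v) : El Γ

namespace El

variable {Γ : Geo V}

def le' : El Γ → El Γ → Prop
  | bot, _ => True
  | top, top => True
  | top, bot => False
  | top, mid _ _ _ => False
  | mid _ _ _, top => True
  | mid _ _ _, bot => False
  | mid v k _, mid w j _ => (v = w ∧ k ≤ j) ∨ Γ.r v w

instance instPO : PartialOrder (El Γ) where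
  le := le'
  le_refl a := by cases a <;> simp [le']
  le_trans a b c := by
    cases a <;> cases b <;> cases c <;> simp only [le', imp_self, implies_true, false_imp_iff]
    rintro (⟨rfl, h1⟩ | h1) (⟨rfl, h2⟩ | h2)
    · exact Or.inl ⟨rfl, h1.trans h2⟩
    · exact Or.inr h2
    · exact Or.inr h1
    · exact (Γ.h2 _ _ _ h1 h2).elim
  le_antisymm a b := by
    cases a <;> cases b <;> simp only [le', imp_self, implies_true, false_imp_iff, true_imp_iff]
    rintro (⟨rfl, h1⟩ | h1) (⟨h, h2⟩ | h2)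
    · have := le_antisymm h1 h2
      subst this
      rfl
    · exact (Γ.h2 _ _ _ h2 h2).elim
    · subst h
      exact (Γ.h2 _ _ _ h1 h1).elim
    · exact (Γ.h2 _ _ _ h1 h2).elim

theorem bot_le' (a : El Γ) : (bot : El Γ) ≤ a := by
  cases a <;> trivial

theorem le_top' (a : El Γ) : a ≤ (top : El Γ) := by
  cases a <;> trivial

instance instBO : BoundedOrder (El Γ) where
  bot := bot
  top := top
  bot_le := bot_le'
  le_top := le_top'

theorem mid_le_mid {v w : V} {k j : ℕ} {h : k ≤ Γ.c v} {h' : j ≤ Γ.c w} :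
    (mid v k h : El Γ) ≤ mid w j h' ↔ (v = w ∧ k ≤ j) ∨ Γ.r v w := Iff.rfl

theorem not_mid_le_bot {v : V} {k : ℕ} {h : k ≤ Γ.c v} : ¬ (mid v k h : El Γ) ≤ bot :=
  fun h => h

theorem not_top_le_mid {v : V} {k : ℕ} {h : k ≤ Γ.c v} : ¬ (top : El Γ) ≤ mid v k h :=
  fun h => h

theorem not_top_le_bot : ¬ (top : El Γ) ≤ bot := fun h => h

def equivOpt (Γ : Geo V) : El Γ ≃ Option (Option (Σ v : V, Fin (Γ.c v + 1))) where
  toFun
    | bot => none
    | top => some none
    | mid v k h => some (some ⟨v, ⟨k, Nat.lt_succ_of_le h⟩⟩)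
  invFun
    | none => bot
    | some none => top
    | some (some ⟨v, k⟩) => mid v k.1 (Nat.le_of_lt_succ k.2)
  left_inv a := by cases a <;> rfl
  right_inv a := by
    rcases a with _ | _ | ⟨v, k⟩ <;> rfl

theorem card_El [Fintype V] (Γ : Geo V) : Nat.card (El Γ) = 2 + ∑ v, (Γ.c v + 1) := by
  rw [Nat.card_congr (equivOpt Γ), Nat.card_eq_fintype_card, Fintype.card_option,
    Fintype.card_option, Fintype.card_sigma]
  simp only [Fintype.card_fin]
  omega

instance instFin [Finite V] : Finite (El Γ) := Finite.of_equiv _ (equivOpt Γ).symm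

theorem exists_lub (a b : El Γ) : ∃ s, IsLUB {a, b} s := by
  by_cases hab : a ≤ b
  · refine ⟨b, ?_, ?_⟩
    · rintro x (rfl | rfl)
      · exact hab
      · exact le_rfl
    · intro u hu
      exact hu (by simp)
  by_cases hba : b ≤ a
  · refine ⟨a, ?_, ?_⟩
    · rintro x (rfl | rfl)
      · exact le_rfl
      · exact hba
    · intro u hu
      exact hu (by simp)
  cases a with
  | bot => exact (hab (bot_le' _)).elim
  | top => exact (hba (le_top' _)).elim
  | mid v k hk =>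
  cases b with
  | bot => exact (hba (bot_le' _)).elim
  | top => exact (hab (le_top' _)).elim
  | mid w j hj =>
  rw [mid_le_mid] at hab hba
  have hvw : v ≠ w := by
    rintro rfl
    rcases le_total k j with h | h
    · exact hab (Or.inl ⟨rfl, h⟩)
    · exact hba (Or.inl ⟨rfl, h⟩)
  have key : ∀ l i hi, (mid v k hk : El Γ) ≤ mid l i hi → (mid w j hj : El Γ) ≤ mid l i hi →
      Γ.r v l ∧ Γ.r w l := by
    intro l i hi h1 h2
    rw [mid_le_mid] at h1 h2
    rcases h1 with ⟨rfl, -⟩ | h1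
    · rcases h2 with ⟨rfl, -⟩ | h2
      · exact (hvw rfl).elim
      · exact (hba (Or.inr h2)).elim
    · rcases h2 with ⟨rfl, -⟩ | h2
      · exact (hab (Or.inr h1)).elim
      · exact ⟨h1, h2⟩
  by_cases hl : ∃ l, Γ.r v l ∧ Γ.r w l
  · obtain ⟨l, h1, h2⟩ := hl
    refine ⟨mid l 0 (Nat.zero_le _), ?_, ?_⟩
    · rintro x (rfl | rfl)
      · exact Or.inr h1
      · exact Or.inr h2
    · intro u hu
      have hu1 := hu (show mid v k hk ∈ _ by simp)
      have hu2 := hu (show mid w j hj ∈ _ by simp)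
      cases u with
      | bot => exact (not_mid_le_bot hu1).elim
      | top => exact le_top' _
      | mid m i hi =>
        obtain ⟨h3, h4⟩ := key m i hi hu1 hu2
        rcases Γ.hlin v w l m h1 h2 h3 h4 with h | h
        · exact (hvw h).elim
        · exact Or.inl ⟨h, Nat.zero_le _⟩
  · refine ⟨top, ?_, ?_⟩
    · intro x _
      exact le_top' _
    · intro u hu
      have hu1 := hu (show mid v k hk ∈ _ by simp)
      have hu2 := hu (show mid w j hj ∈ _ by simp)
      cases u with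
      | bot => exact (not_mid_le_bot hu1).elim
      | top => exact le_top' _
      | mid m i hi => exact (hl ⟨m, key m i hi hu1 hu2⟩).elim

theorem exists_glb [Finite V] (a b : El Γ) : ∃ s, IsGLB {a, b} s := by
  classical
  choose sup hsup using exists_lub (Γ := Γ)
  letI : SemilatticeSup (El Γ) := SemilatticeSup.ofIsLUB sup hsup
  haveI := Fintype.ofFinite (El Γ)
  refine ⟨(Finset.univ.filter (fun x => x ≤ a ∧ x ≤ b)).sup id, ?_, ?_⟩
  · rintro x (rfl | rfl)
    · exact Finset.sup_le fun y hy => (Finset.mem_filter.1 hy).2.1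
    · exact Finset.sup_le fun y hy => (Finset.mem_filter.1 hy).2.2
  · intro u hu
    exact Finset.le_sup (f := id)
      (Finset.mem_filter.2 ⟨Finset.mem_univ _, hu (by simp), hu (by simp)⟩)

@[instance_reducible]
noncomputable def lattice [Finite V] (Γ : Geo V) : Lattice (El Γ) :=
  Lattice.ofIsLUBofIsGLB (fun a b => (exists_lub a b).choose) (fun a b => (exists_glb a b).choose)
    (fun a b => (exists_lub a b).choose_spec) (fun a b => (exists_glb a b).choose_spec)

/-- the down-set of `a` is a chain -/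
def Low (a : El Γ) : Prop := ∀ b c : El Γ, b ≤ a → c ≤ a → b ≤ c ∨ c ≤ b

theorem low_map (α : El Γ ≃o El Γ) (a : El Γ) : Low (α a) ↔ Low a := by
  constructor
  · intro h b c hb hc
    have := h (α b) (α c) (α.le_iff_le.2 hb) (α.le_iff_le.2 hc)
    simpa only [α.le_iff_le] using this
  · intro h b c hb hc
    have := h (α.symm b) (α.symm c) (α.symm_apply_le.2 hb) (α.symm_apply_le.2 hc)
    simpa only [α.symm.le_iff_le] using this

theorem low_mid (v : V) (k : ℕ) (h : k ≤ Γ.c v) : Low (mid v k h : El Γ) ↔ ∀ u, ¬ Γ.r u v := by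
  constructor
  · intro hl u hu
    obtain ⟨y, hy, hyv⟩ := Γ.hline u v hu
    rcases hl (mid u 0 (Nat.zero_le _)) (mid y 0 (Nat.zero_le _)) (Or.inr hu) (Or.inr hyv) with
      h1 | h1
    · rcases mid_le_mid.1 h1 with ⟨h2, -⟩ | h2
      · exact hy h2.symm
      · exact Γ.h2 _ _ _ h2 hyv
    · rcases mid_le_mid.1 h1 with ⟨h2, -⟩ | h2
      · exact hy h2
      · exact Γ.h2 _ _ _ h2 hu
  · intro hu b c hb hc
    cases b with
    | bot => exact Or.inl (bot_le' _)
    | top => exact (not_top_le_mid hb).elim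
    | mid w j hj =>
    cases c with
    | bot => exact Or.inr (bot_le' _)
    | top => exact (not_top_le_mid hc).elim
    | mid x i hi =>
    rcases mid_le_mid.1 hb with ⟨rfl, -⟩ | h1
    · rcases mid_le_mid.1 hc with ⟨rfl, -⟩ | h2
      · rcases le_total j i with h3 | h3
        · exact Or.inl (Or.inl ⟨rfl, h3⟩)
        · exact Or.inr (Or.inl ⟨rfl, h3⟩)
      · exact (hu _ h2).elim
    · exact (hu _ h1).elim

theorem map_mid (α : El Γ ≃o El Γ) (v : V) (k : ℕ) (h : k ≤ Γ.c v) :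
    ∃ w j hj, α (mid v k h) = mid w j hj := by
  have hb : α bot = bot := α.map_bot
  have ht : α top = top := α.map_top
  cases e : α (mid v k h) with
  | bot => rw [← hb] at e; exact absurd (α.injective e) (by simp)
  | top => rw [← ht] at e; exact absurd (α.injective e) (by simp)
  | mid w j hj => exact ⟨w, j, hj, rfl⟩

/-- comparable elements of the same chain go to the same chain -/
theorem same_chain (α : El Γ ≃o El Γ) (v : V) (k k' : ℕ) (h : k ≤ Γ.c v) (h' : k' ≤ Γ.c v)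
    (hk : k ≤ k') {w w' : V} {j j' : ℕ} {hj : j ≤ Γ.c w} {hj' : j' ≤ Γ.c w'}
    (e : α (mid v k h) = mid w j hj) (e' : α (mid v k' h') = mid w' j' hj') :
    w = w' ∧ j ≤ j' := by
  have hle : α (mid v k h) ≤ α (mid v k' h') := α.le_iff_le.2 (Or.inl ⟨rfl, hk⟩)
  rw [e, e'] at hle
  rcases mid_le_mid.1 hle with h1 | h1
  · exact h1
  · exfalso
    have l1 := low_map α (mid v k h)
    have l2 := low_map α (mid v k' h')
    rw [e, low_mid, low_mid] at l1
    rw [e', low_mid, low_mid] at l2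
    have n2 : ¬ ∀ u, ¬ Γ.r u v := fun hh => l2.2 hh w h1
    apply n2
    apply l1.1
    intro u hu
    exact Γ.h2 _ _ _ hu h1

noncomputable def vmap (α : El Γ ≃o El Γ) (v : V) : V :=
  (map_mid α v 0 (Nat.zero_le _)).choose

theorem vmap_spec (α : El Γ ≃o El Γ) (v : V) (k : ℕ) (h : k ≤ Γ.c v) :
    ∃ j hj, α (mid v k h) = mid (vmap α v) j hj ∧ k ≤ j := by
  induction k with
  | zero =>
    obtain ⟨j, hj, e⟩ := (map_mid α v 0 (Nat.zero_le _)).choose_spec
    exact ⟨j, hj, e, Nat.zero_le _⟩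
  | succ k ih =>
    obtain ⟨j, hj, e, hkj⟩ := ih (Nat.le_of_succ_le h)
    obtain ⟨w, j', hj', e'⟩ := map_mid α v (k + 1) h
    obtain ⟨h1, h2⟩ := same_chain α v k (k + 1) _ h (Nat.le_succ k) e e'
    subst h1
    refine ⟨j', hj', e', ?_⟩
    rcases h2.lt_or_eq with h3 | h3
    · omega
    · subst h3
      have := α.injective (e.trans e'.symm)
      simp at this

theorem vmap_full (α : El Γ ≃o El Γ) (v : V) (k : ℕ) (h : k ≤ Γ.c v) :
    vmap α.symm (vmap α v) = v ∧ ∃ hk, α (mid v k h) = mid (vmap α v) k hk := by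
  obtain ⟨j, hj, e, hkj⟩ := vmap_spec α v k h
  obtain ⟨i, hi, e', hji⟩ := vmap_spec α.symm (vmap α v) j hj
  rw [← e, α.symm_apply_apply] at e'
  injection e' with h1 h2
  have : j = k := by omega
  subst this
  exact ⟨h1.symm, hj, e⟩

theorem c_vmap (α : El Γ ≃o El Γ) (v : V) : Γ.c (vmap α v) = Γ.c v := by
  obtain ⟨h1, h2, -⟩ := vmap_full α v (Γ.c v) le_rfl
  obtain ⟨-, h3, -⟩ := vmap_full α.symm (vmap α v) (Γ.c (vmap α v)) le_rfl
  rw [h1] at h3
  omega

theorem r_vmap (α : El Γ ≃o El Γ) (u v : V) (h : Γ.r u v) : Γ.r (vmap α u) (vmap α v) := by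
  obtain ⟨h1, hk, e⟩ := vmap_full α u 0 (Nat.zero_le _)
  obtain ⟨h2, hk', e'⟩ := vmap_full α v 0 (Nat.zero_le _)
  have hle : α (mid u 0 (Nat.zero_le _)) ≤ α (mid v 0 (Nat.zero_le _)) :=
    α.le_iff_le.2 (Or.inr h)
  rw [e, e'] at hle
  rcases mid_le_mid.1 hle with ⟨h3, -⟩ | h3
  · have : u = v := by rw [← h1, h3, h2]
    subst this
    exact (Γ.h2 _ _ _ h h).elim
  · exact h3

section Act

variable {G : Type} [Group G] [MulAction G V]

def act (hc : ∀ (g : G) v, Γ.c (g • v) = Γ.c v) (g : G) : El Γ → El Γ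
  | bot => bot
  | top => top
  | mid v k h => mid (g • v) k ((hc g v).symm ▸ h)

theorem act_mul (hc : ∀ (g : G) v, Γ.c (g • v) = Γ.c v) (g g' : G) (a : El Γ) :
    act hc (g * g') a = act hc g (act hc g' a) := by
  cases a <;> simp [act, mul_smul]

theorem act_one (hc : ∀ (g : G) v, Γ.c (g • v) = Γ.c v) (a : El Γ) :
    act hc (1 : G) a = a := by
  cases a <;> simp [act]

def actIso (hc : ∀ (g : G) v, Γ.c (g • v) = Γ.c v)
    (hr : ∀ (g : G) u v, Γ.r (g • u) (g • v) ↔ Γ.r u v) (g : G) : El Γ ≃o El Γ where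
  toFun := act hc g
  invFun := act hc g⁻¹
  left_inv a := by rw [← act_mul, inv_mul_cancel, act_one]
  right_inv a := by rw [← act_mul, mul_inv_cancel, act_one]
  map_rel_iff' := by
    intro a b
    cases a <;> cases b <;> try exact Iff.rfl
    simp only [Equiv.coe_fn_mk, act, mid_le_mid, hr, smul_left_cancel_iff]

def actHom (hc : ∀ (g : G) v, Γ.c (g • v) = Γ.c v)
    (hr : ∀ (g : G) u v, Γ.r (g • u) (g • v) ↔ Γ.r u v) : G →* (El Γ ≃o El Γ) where
  toFun := actIso hc hr
  map_one' := by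
    ext a
    exact act_one hc a
  map_mul' g g' := by
    ext a
    exact act_mul hc g g' a

end Act

end El

theorem lattice_of_geo {G : Type} [Group G] [Fintype V] [MulAction G V] (Γ : Geo V)
    (hc : ∀ (g : G) v, Γ.c (g • v) = Γ.c v)
    (hr : ∀ (g : G) u v, Γ.r (g • u) (g • v) ↔ Γ.r u v)
    (hfaith : ∀ g : G, (∀ v : V, g • v = v) → g = 1)
    (hrigid : ∀ f f' : V → V, (∀ v, f' (f v) = v) → (∀ v, f (f' v) = v) →
      (∀ u v, Γ.r u v → Γ.r (f u) (f v)) → (∀ u v, Γ.r u v → Γ.r (f' u) (f' v)) →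
      (∀ v, Γ.c (f v) = Γ.c v) → ∃ g : G, ∀ v, f v = g • v) :
    ∃ (L : Type) (_ : Lattice L) (_ : Finite L),
      Nat.card L = 2 + ∑ v, (Γ.c v + 1) ∧ Nonempty ((L ≃o L) ≃* G) := by
  refine ⟨El Γ, El.lattice Γ, inferInstance, El.card_El Γ, ⟨?_⟩⟩
  refine (MulEquiv.ofBijective (El.actHom hc hr) ⟨?_, ?_⟩).symm
  · rw [injective_iff_map_eq_one]
    intro g hg
    apply hfaith
    intro v
    have : El.act hc g (El.mid v 0 (Nat.zero_le _)) = El.mid v 0 (Nat.zero_le _) :=
      congrArg (fun β : El Γ ≃o El Γ => β (El.mid v 0 (Nat.zero_le _))) hg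
    simp only [El.act] at this
    injection this
  · intro α
    obtain ⟨g, hg⟩ := hrigid (El.vmap α) (El.vmap α.symm)
      (fun v => (El.vmap_full α v 0 (Nat.zero_le _)).1)
      (fun v => (El.vmap_full α.symm v 0 (Nat.zero_le _)).1)
      (El.r_vmap α) (El.r_vmap α.symm) (El.c_vmap α)
    refine ⟨g, ?_⟩
    ext a
    change El.act hc g a = α a
    cases a with
    | bot => exact (α.map_bot).symm
    | top => exact (α.map_top).symm
    | mid v k h =>
      obtain ⟨-, hk, e⟩ := El.vmap_full α v k h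
      rw [e]
      simp only [El.act, hg]

end Pool.Agent.MP_a1dcd4_co

end

section

set_option autoImplicit false

namespace Pool.Agent.MP_a1dcd4_co.OR

open Function

theorem orb_mono_Geom {G : Type} [Group G] {c c' : ℕ} (h : Orb c G) (hc : c ≤ c') :
    Orb c' G := by
  obtain ⟨L, iL, fL, h1, h2, R, h3, h4⟩ := h
  exact ⟨L, iL, fL, h1, h2.trans (Nat.mul_le_mul_right _ hc), R, h3.trans hc, h4⟩

/-- orbit representatives -/
def rep_Geom {V B : Type} (Γ : Geo V) (b : B → V) (m : ℕ) :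
    Option (Option (B × Fin m)) → El Γ
  | none => El.bot
  | some none => El.top
  | some (some (i, k)) => El.mid (b i) (min k (Γ.c (b i))) (min_le_right _ _)

theorem orb_of_geo_Geom {G V B : Type} [Group G] [Finite G] [Finite V] [Fintype B]
    [MulAction G V] (Γ : Geo V) (b : B → V) (m : ℕ)
    (hB : ∀ v : V, ∃ (g : G) (i : B), g • b i = v) (hm : ∀ v, Γ.c v < m)
    (hc : ∀ (g : G) v, Γ.c (g • v) = Γ.c v)
    (hr : ∀ (g : G) u v, Γ.r (g • u) (g • v) ↔ Γ.r u v)
    (hfaith : ∀ g : G, (∀ v : V, g • v = v) → g = 1)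
    (hrigid : ∀ f f' : V → V, (∀ v, f' (f v) = v) →
      (∀ u v, Γ.r u v → Γ.r (f u) (f v)) →
      (∀ v, Γ.c (f v) = Γ.c v) → ∃ g : G, ∀ v, f v = g • v) :
    Orb (Fintype.card B * m + 2) G := by
  classical
  have hsurj : ∀ x : El Γ, ∃ (r : Option (Option (B × Fin m))) (g : G),
      El.act hc g (rep_Geom Γ b m r) = x := by
    intro x
    cases x with
    | bot => exact ⟨none, 1, rfl⟩
    | top => exact ⟨some none, 1, rfl⟩
    | mid v k h =>
      obtain ⟨g, i, rfl⟩ := hB v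
      have hk : k ≤ Γ.c (b i) := by rwa [hc] at h
      refine ⟨some (some (i, ⟨k, hk.trans_lt (hm _)⟩)), g, ?_⟩
      simp only [rep_Geom, El.act, min_eq_left hk]
  have hcard : Fintype.card (Option (Option (B × Fin m))) = Fintype.card B * m + 2 := by
    simp only [Fintype.card_option, Fintype.card_prod, Fintype.card_fin]
  refine ⟨El Γ, El.lattice Γ, inferInstance, ⟨?_⟩, ?_,
    Finset.univ.image (rep_Geom Γ b m), ?_, ?_⟩
  · refine (MulEquiv.ofBijective (El.actHom hc hr) ⟨?_, ?_⟩).symm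
    · rw [injective_iff_map_eq_one]
      intro g hg
      apply hfaith
      intro v
      have : El.act hc g (El.mid v 0 (Nat.zero_le _)) = El.mid v 0 (Nat.zero_le _) :=
        congrArg (fun β : El Γ ≃o El Γ => β (El.mid v 0 (Nat.zero_le _))) hg
      simp only [El.act] at this
      injection this
    · intro α
      obtain ⟨g, hg⟩ := hrigid (El.vmap α) (El.vmap α.symm)
        (fun v => (El.vmap_full α v 0 (Nat.zero_le _)).1)
        (El.r_vmap α) (El.c_vmap α)
      refine ⟨g, ?_⟩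
      ext a
      change El.act hc g a = α a
      cases a with
      | bot => exact (α.map_bot).symm
      | top => exact (α.map_top).symm
      | mid v k h =>
        obtain ⟨-, hk, e⟩ := El.vmap_full α v k h
        rw [e]
        simp only [El.act, hg]
  · have := Nat.card_le_card_of_surjective
      (fun p : Option (Option (B × Fin m)) × G => El.act hc p.2 (rep_Geom Γ b m p.1))
      (fun x => by
        obtain ⟨r, g, e⟩ := hsurj x
        exact ⟨(r, g), e⟩)
    rwa [Nat.card_prod, Nat.card_eq_fintype_card (α := Option _), hcard] at this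
  · refine Finset.card_image_le.trans ?_
    rw [Finset.card_univ, hcard]
  · intro x
    obtain ⟨r, g, e⟩ := hsurj x
    exact ⟨_, Finset.mem_image_of_mem _ (Finset.mem_univ r), El.actIso hc hr g, e⟩

/-- points, link lines and main lines -/
inductive Vx_Geom {G I : Type} [Group G] (K : I → Subgroup G) : Type
  | pt (g : G) (t : Option (I × Bool)) : Vx_Geom K
  | lk (g : G) (t : I × Bool) : Vx_Geom K
  | mn (i : I) (q : G ⧸ K i) : Vx_Geom K

namespace Vx_Geom

variable {G I : Type} [Group G] {K : I → Subgroup G}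

def ofSum_Geom : (G × Option (I × Bool)) ⊕ (G × I × Bool) ⊕ (Σ i : I, G ⧸ K i) → Vx_Geom K
  | Sum.inl (g, t) => pt g t
  | Sum.inr (Sum.inl (g, t)) => lk g t
  | Sum.inr (Sum.inr ⟨i, q⟩) => mn i q

instance instFinite_Geom [Finite G] [Finite I] : Finite (Vx_Geom K) :=
  Finite.of_surjective (ofSum_Geom (K := K)) (by
    intro v
    cases v with
    | pt g t => exact ⟨Sum.inl (g, t), rfl⟩
    | lk g t => exact ⟨Sum.inr (Sum.inl (g, t)), rfl⟩
    | mn i q => exact ⟨Sum.inr (Sum.inr ⟨i, q⟩), rfl⟩)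

def sm_Geom (x : G) : Vx_Geom K → Vx_Geom K
  | pt g t => pt (x * g) t
  | lk g t => lk (x * g) t
  | mn i q => mn i (x • q)

instance instMulAction_Geom : MulAction G (Vx_Geom K) where
  smul := sm_Geom
  one_smul v := by
    change sm_Geom 1 v = v
    cases v <;> simp [sm_Geom]
  mul_smul g g' v := by
    change sm_Geom _ v = sm_Geom _ (sm_Geom _ v)
    cases v <;> simp [sm_Geom, mul_assoc, mul_smul]

theorem smul_pt_Geom (x g : G) (t : Option (I × Bool)) :
    x • (pt g t : Vx_Geom K) = pt (x * g) t := rfl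

theorem smul_lk_Geom (x g : G) (t : I × Bool) :
    x • (lk g t : Vx_Geom K) = lk (x * g) t := rfl

theorem smul_mn_Geom (x : G) (i : I) (q : G ⧸ K i) :
    x • (mn i q : Vx_Geom K) = mn i (x • q) := rfl

/-- the type of a vertex -/
def ty_Geom : Vx_Geom K → Option (I × Bool) ⊕ (I × Bool) ⊕ I
  | pt _ t => Sum.inl t
  | lk _ t => Sum.inr (Sum.inl t)
  | mn i _ => Sum.inr (Sum.inr i)

/-- the base vertex of a type -/
def base_Geom (K : I → Subgroup G) : Option (I × Bool) ⊕ (I × Bool) ⊕ I → Vx_Geom K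
  | Sum.inl t => pt 1 t
  | Sum.inr (Sum.inl t) => lk 1 t
  | Sum.inr (Sum.inr i) => mn i ((1 : G) : G ⧸ K i)

/-- incidence -/
def inc_Geom (S : I → Set G) : Vx_Geom K → Vx_Geom K → Prop
  | pt h t, lk g u => h = g ∧ (t = none ∨ t = some u)
  | pt h t, mn i q => (t = some (i, false) ∧ (h : G ⧸ K i) = q) ∨
      (t = some (i, true) ∧ ∃ g : G, (g : G ⧸ K i) = q ∧ g⁻¹ * h ∈ S i)
  | pt _ _, pt _ _ => False
  | lk _ _, _ => False
  | mn _ _, _ => False

theorem inc_shape_Geom (S : I → Set G) (u v : Vx_Geom K) (h : inc_Geom S u v) :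
    ∃ x t, u = pt x t ∧ ((∃ g w, v = lk g w ∧ x = g ∧ (t = none ∨ t = some w)) ∨
      ∃ i q, v = mn i q ∧ ((t = some (i, false) ∧ (x : G ⧸ K i) = q) ∨
        (t = some (i, true) ∧ ∃ g : G, (g : G ⧸ K i) = q ∧ g⁻¹ * x ∈ S i))) := by
  cases u with
  | pt x t =>
    cases v with
    | pt y w => exact h.elim
    | lk g w => exact ⟨x, t, rfl, Or.inl ⟨g, w, rfl, h⟩⟩
    | mn i q => exact ⟨x, t, rfl, Or.inr ⟨i, q, rfl, h⟩⟩
  | lk g w => exact h.elim
  | mn i q => exact h.elim

theorem inc_smul_Geom (S : I → Set G) (x : G) (u v : Vx_Geom K) (h : inc_Geom S u v) :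
    inc_Geom S (x • u) (x • v) := by
  obtain ⟨y, t, rfl, ⟨g, w, rfl, rfl, h1⟩ | ⟨i, q, rfl, h1⟩⟩ := inc_shape_Geom S u v h
  · exact ⟨rfl, h1⟩
  · rcases h1 with ⟨rfl, rfl⟩ | ⟨rfl, g, rfl, h1⟩
    · exact Or.inl ⟨rfl, rfl⟩
    · refine Or.inr ⟨rfl, x * g, rfl, ?_⟩
      rwa [mul_inv_rev, mul_assoc, inv_mul_cancel_left]

theorem hlin_Geom (S : I → Set G)
    (hc2 : ∀ i, ∀ k ∈ K i, ∀ s ∈ S i, ∀ t ∈ S i, ∀ k' ∈ K i, ∀ s' ∈ S i, ∀ t' ∈ S i,
      s⁻¹ * k * t = s'⁻¹ * k' * t' → s⁻¹ * k * t = 1 ∨ s * s'⁻¹ ∈ K i)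
    (x y l m : Vx_Geom K) (h1 : inc_Geom S x l) (h2 : inc_Geom S y l) (h3 : inc_Geom S x m)
    (h4 : inc_Geom S y m) : x = y ∨ l = m := by
  obtain ⟨x, t, rfl, -⟩ := inc_shape_Geom S x l h1
  obtain ⟨y, u, rfl, -⟩ := inc_shape_Geom S y l h2
  cases l with
  | pt _ _ => exact h1.elim
  | lk g w =>
    cases m with
    | pt _ _ => exact h3.elim
    | lk g' w' =>
      obtain ⟨rfl, c1⟩ := h1
      obtain ⟨rfl, c2⟩ := h2
      obtain ⟨rfl, c3⟩ := h3
      obtain ⟨-, c4⟩ := h4
      rcases c1 with rfl | rfl <;> rcases c2 with rfl | rfl <;> simp_all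
    | mn j q' =>
      obtain ⟨rfl, c1⟩ := h1
      obtain ⟨rfl, c2⟩ := h2
      left
      rcases c1 with rfl | rfl <;> rcases c2 with rfl | rfl
      · rfl
      · rcases h3 with ⟨h3, -⟩ | ⟨h3, -⟩ <;> cases h3
      · rcases h4 with ⟨h4, -⟩ | ⟨h4, -⟩ <;> cases h4
      · rfl
  | mn i q =>
    cases m with
    | pt _ _ => exact h3.elim
    | lk g' w' =>
      obtain ⟨rfl, c3⟩ := h3
      obtain ⟨rfl, c4⟩ := h4
      left
      rcases c3 with rfl | rfl <;> rcases c4 with rfl | rfl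
      · rfl
      · rcases h1 with ⟨h1, -⟩ | ⟨h1, -⟩ <;> cases h1
      · rcases h2 with ⟨h2, -⟩ | ⟨h2, -⟩ <;> cases h2
      · rfl
    | mn j q' =>
      rcases h1 with ⟨rfl, rfl⟩ | ⟨rfl, g1, rfl, c1⟩
      · rcases h3 with ⟨h3, e⟩ | ⟨h3, -⟩
        · cases h3
          exact Or.inr (by rw [e])
        · cases h3
      · rcases h3 with ⟨h3, -⟩ | ⟨h3, g3, rfl, c3⟩
        · cases h3
        cases h3
        rcases h2 with ⟨rfl, e2⟩ | ⟨rfl, g2, e2, c2⟩
        · rcases h4 with ⟨-, e4⟩ | ⟨h4, -⟩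
          · exact Or.inr (by rw [← e2, ← e4])
          · cases h4
        · rcases h4 with ⟨h4, -⟩ | ⟨-, g4, e4, c4⟩
          · cases h4
          have e2' : g1⁻¹ * g2 ∈ K i := QuotientGroup.eq.1 e2.symm
          have e4' : g3⁻¹ * g4 ∈ K i := QuotientGroup.eq.1 e4.symm
          rcases hc2 i _ e2' _ c1 _ c2 _ e4' _ c3 _ c4 (by group) with h | h
          · left
            have h' : x⁻¹ * y = 1 := by rw [← h]; group
            rw [inv_mul_eq_one.1 h']
          · right
            have h' : g1⁻¹ * g3 ∈ K i := by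
              have e : g1⁻¹ * g3 = g1⁻¹ * x * (g3⁻¹ * x)⁻¹ := by group
              rw [e]
              exact h
            rw [QuotientGroup.eq.2 h']

theorem hline_Geom (S : I → Set G) (hS : ∀ i, (S i).Nonempty) (x l : Vx_Geom K)
    (h : inc_Geom S x l) : ∃ y, y ≠ x ∧ inc_Geom S y l := by
  obtain ⟨y, t, rfl, ⟨g, w, rfl, rfl, h1⟩ | ⟨i, q, rfl, h1⟩⟩ := inc_shape_Geom S x l h
  · rcases h1 with rfl | rfl
    · exact ⟨pt y (some w), by simp, rfl, Or.inr rfl⟩
    · exact ⟨pt y none, by simp, rfl, Or.inl rfl⟩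
  · rcases h1 with ⟨rfl, rfl⟩ | ⟨rfl, g, rfl, h1⟩
    · obtain ⟨s, hs⟩ := hS i
      exact ⟨pt (y * s) (some (i, true)), by simp, Or.inr ⟨rfl, y, rfl, by simpa using hs⟩⟩
    · exact ⟨pt g (some (i, false)), by simp, Or.inl ⟨rfl, rfl⟩⟩

theorem rigid_Geom (S : I → Set G)
    (hrigid : ∀ φ : G → G, Injective φ →
      (∀ i g, ∀ k ∈ K i, ∀ s ∈ S i, ∃ k' ∈ K i, ∃ s' ∈ S i, φ (g * k * s) = φ g * k' * s') →
      ∀ z, Fixes φ z)
    (f : Vx_Geom K → Vx_Geom K) (hf : Injective f)
    (h3 : ∀ u v, inc_Geom S u v → inc_Geom S (f u) (f v))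
    (h5 : ∀ v, ty_Geom (f v) = ty_Geom v) : ∃ g : G, ∀ v, f v = g • v := by
  have hpt : ∀ g t, ∃ h, f (pt g t) = pt h t := by
    intro g t
    have := h5 (pt g t)
    cases e : f (pt g t) with
    | pt h t' =>
      rw [e] at this
      cases this
      exact ⟨h, rfl⟩
    | lk _ _ => rw [e] at this; cases this
    | mn _ _ => rw [e] at this; cases this
  choose φ hφ using hpt
  have hlk : ∀ g t, f (lk g t) = lk (φ g none) t ∧ φ g (some t) = φ g none := by
    intro g t
    have := h5 (lk g t)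
    cases e : f (lk g t) with
    | pt _ _ => rw [e] at this; cases this
    | mn _ _ => rw [e] at this; cases this
    | lk h t' =>
      rw [e] at this
      cases this
      have r1 := h3 (pt g none) (lk g t) ⟨rfl, Or.inl rfl⟩
      have r2 := h3 (pt g (some t)) (lk g t) ⟨rfl, Or.inr rfl⟩
      rw [e, hφ] at r1 r2
      rw [r1.1, r2.1]
      exact ⟨rfl, rfl⟩
  have hmn : ∀ i (g : G), f (mn i g) = mn i (φ g none : G) := by
    intro i g
    have := h5 (mn i g)
    cases e : f (mn i g) with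
    | pt _ _ => rw [e] at this; cases this
    | lk _ _ => rw [e] at this; cases this
    | mn j q =>
      rw [e] at this
      cases this
      have r1 := h3 (pt g (some (i, false))) (mn i g) (Or.inl ⟨rfl, rfl⟩)
      rw [e, hφ, (hlk g _).2] at r1
      rcases r1 with ⟨-, r1⟩ | ⟨r1, -⟩
      · rw [r1]
      · cases r1
  have hinj : Injective (fun g => φ g none) := by
    intro g g' e
    have e' : φ g none = φ g' none := e
    have : f (pt g none) = f (pt g' none) := by rw [hφ, hφ, e']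
    have := hf this
    injection this
  have hmul := hrigid (fun g => φ g none) hinj (by
    intro i g k hk s hs
    have r1 := h3 (pt (g * k * s) (some (i, true))) (mn i g)
      (Or.inr ⟨rfl, g * k, (QuotientGroup.eq.2 (by simpa using hk)).symm,
        by rwa [inv_mul_cancel_left]⟩)
    rw [hφ, hmn, (hlk _ _).2] at r1
    rcases r1 with ⟨r1, -⟩ | ⟨-, g1, e1, c1⟩
    · cases r1
    · exact ⟨_, QuotientGroup.eq.1 e1.symm, _, c1, by group⟩)
  have hφ1 : ∀ g, φ g none = φ 1 none * g := by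
    intro g
    simpa using hmul g 1
  refine ⟨φ 1 none, ?_⟩
  intro v
  cases v with
  | pt h t =>
    rw [hφ, smul_pt_Geom, ← hφ1]
    rcases t with _ | t
    · rfl
    · rw [(hlk h t).2]
  | lk h t => rw [(hlk h t).1, smul_lk_Geom, ← hφ1]
  | mn i q =>
    obtain ⟨h, rfl⟩ := QuotientGroup.mk_surjective q
    rw [hmn, hφ1, smul_mn_Geom]
    rfl

end Vx_Geom

open Vx_Geom in
theorem orb_of_system_Geom {G I : Type} [Group G] [Finite G] [Fintype I]
    (K : I → Subgroup G) (S : I → Set G) (hS : ∀ i, (S i).Nonempty)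
    (hc2 : ∀ i, ∀ k ∈ K i, ∀ s ∈ S i, ∀ t ∈ S i, ∀ k' ∈ K i, ∀ s' ∈ S i, ∀ t' ∈ S i,
      s⁻¹ * k * t = s'⁻¹ * k' * t' → s⁻¹ * k * t = 1 ∨ s * s'⁻¹ ∈ K i)
    (hrigid : ∀ φ : G → G, Injective φ →
      (∀ i g, ∀ k ∈ K i, ∀ s ∈ S i, ∃ k' ∈ K i, ∃ s' ∈ S i, φ (g * k * s) = φ g * k' * s') →
      ∀ z, Fixes φ z) :
    Orb (Fintype.card (Option (I × Bool) ⊕ (I × Bool) ⊕ I) *
      Fintype.card (Option (I × Bool) ⊕ (I × Bool) ⊕ I) + 2) G := by
  let e := Fintype.equivFin (Option (I × Bool) ⊕ (I × Bool) ⊕ I)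
  let Γ : Geo (Vx_Geom K) :=
    { r := inc_Geom S
      c := fun v => (e (ty_Geom v) : ℕ)
      h2 := by
        intro u v w h1 h2
        obtain ⟨x, t, rfl, ⟨g, w, rfl, -⟩ | ⟨i, q, rfl, -⟩⟩ := inc_shape_Geom S u v h1
        · exact h2
        · exact h2
      hlin := hlin_Geom S hc2
      hline := hline_Geom S hS }
  refine orb_of_geo_Geom Γ (base_Geom K) _ ?_ (fun v => (e (ty_Geom v)).2) ?_ ?_ ?_ ?_
  · intro v
    cases v with
    | pt g t => exact ⟨g, Sum.inl t, by rw [base_Geom, smul_pt_Geom, mul_one]⟩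
    | lk g t => exact ⟨g, Sum.inr (Sum.inl t), by rw [base_Geom, smul_lk_Geom, mul_one]⟩
    | mn i q =>
      obtain ⟨g, rfl⟩ := QuotientGroup.mk_surjective q
      refine ⟨g, Sum.inr (Sum.inr i), ?_⟩
      rw [base_Geom, smul_mn_Geom, MulAction.Quotient.smul_coe, smul_eq_mul, mul_one]
  · intro g v
    cases v <;> rfl
  · intro g u v
    refine ⟨fun h => ?_, inc_smul_Geom S g u v⟩
    have := inc_smul_Geom S g⁻¹ _ _ h
    simpa using this
  · intro g hg
    have := hg (pt 1 none)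
    rw [smul_pt_Geom] at this
    injection this with h
    simpa using h
  · intro f f' h1 h3 h5
    exact rigid_Geom S hrigid f (LeftInverse.injective h1) h3
      (fun v => e.injective (Fin.ext (h5 v)))

theorem good_split_Geom {G : Type} [Group G] (T : Set G) (h : Good T) :
    ∃ (K : Subgroup G) (S : Set G), S.Nonempty ∧
      (∀ k ∈ K, ∀ s ∈ S, ∀ t ∈ S, ∀ k' ∈ K, ∀ s' ∈ S, ∀ t' ∈ S,
        s⁻¹ * k * t = s'⁻¹ * k' * t' → s⁻¹ * k * t = 1 ∨ s * s'⁻¹ ∈ K) ∧
      ∀ φ : G → G, (∀ g, ∀ k ∈ K, ∀ s ∈ S, ∃ k' ∈ K, ∃ s' ∈ S, φ (g * k * s) = φ g * k' * s') →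
        Pres T φ := by
  rcases h with h | ⟨K, rfl⟩
  · rcases T.eq_empty_or_nonempty with rfl | hT
    · refine ⟨⊥, {1}, Set.singleton_nonempty _, ?_, ?_⟩
      · rintro k - s rfl t - k' - s' rfl t' - -
        exact Or.inr (by simp)
      · intro φ _ g s hs
        exact hs.elim
    · refine ⟨⊥, T, hT, ?_, ?_⟩
      · intro k hk s hs t ht k' hk' s' hs' t' ht' e
        rw [Subgroup.mem_bot] at hk hk'
        subst hk hk'
        rw [mul_one, mul_one] at e
        rw [mul_one]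
        rcases h s hs t ht s' hs' t' ht' e with h1 | h1
        · exact Or.inl h1
        · exact Or.inr (by simp [h1])
      · intro φ hφ g s hs
        obtain ⟨k', hk', s', hs', e⟩ := hφ g 1 (Subgroup.one_mem _) s hs
        rw [Subgroup.mem_bot] at hk'
        subst hk'
        exact ⟨s', hs', by simpa using e⟩
  · refine ⟨K, {1}, Set.singleton_nonempty _, ?_, ?_⟩
    · rintro k - s rfl t - k' - s' rfl t' - -
      exact Or.inr (by simp)
    · intro φ hφ g k hk
      obtain ⟨k', hk', s', hs', e⟩ := hφ g k hk 1 rfl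
      rw [Set.mem_singleton_iff] at hs'
      subst hs'
      exact ⟨k', hk', by simpa using e⟩

theorem geom : S_Geom := by
  intro n
  refine ⟨(5 * n + 1) * (5 * n + 1) + 2, ?_⟩
  intro G _ _ h
  obtain ⟨F, h1, h2, h3⟩ := h
  choose K S hS hc2 hP using fun i : Fin F.length =>
    good_split_Geom (F.get i) (h2 _ (List.get_mem F i))
  refine orb_mono_Geom (orb_of_system_Geom K S hS hc2 ?_) ?_
  · intro φ hφ hF z
    refine h3 φ hφ ?_ z trivial
    intro T hT
    obtain ⟨i, rfl⟩ := List.get_of_mem hT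
    exact hP i φ (hF i)
  · have e : Fintype.card (Option (Fin F.length × Bool) ⊕ (Fin F.length × Bool) ⊕ Fin F.length)
        ≤ 5 * n + 1 := by
      simp only [Fintype.card_sum, Fintype.card_option, Fintype.card_prod, Fintype.card_fin,
        Fintype.card_bool]
      omega
    exact Nat.add_le_add_right (Nat.mul_le_mul e e) 2

end Pool.Agent.MP_a1dcd4_co.OR

end

section

set_option autoImplicit false

namespace Pool.Agent.MP_a1dcd4_co.OR

open Function

section

variable {G : Type} [Group G]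

/-- a system of stars with centres `c l` and leaves `B l` -/
structure Sys_Star (Λ : Finset ℕ) (c : ℕ → G) (B : ℕ → Finset G) (W X : Finset G) : Prop where
  sW : Sidon (W : Set G)
  sX : Sidon (X : Set G)
  oW : ∀ x ∈ W, Odd (orderOf x)
  oX : ∀ x ∈ X, Odd (orderOf x)
  cW : ∀ l ∈ Λ, c l ∈ W
  bW : ∀ l ∈ Λ, ∀ b ∈ B l, b ∈ W
  cB : ∀ l ∈ Λ, c l ∉ B l
  card : ∀ l ∈ Λ, (B l).card = l + 1
  bX : ∀ l ∈ Λ, ∀ b ∈ B l, (c l)⁻¹ * b ∈ X
  inj : ∀ l ∈ Λ, ∀ j ∈ Λ, c l = c j → l = j
  sur : ∀ x ∈ X, ∃ l ∈ Λ, ∃ b ∈ B l, x = (c l)⁻¹ * b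

theorem perm_Star (Λ : Finset ℕ) (σ : ℕ → ℕ) (hm : ∀ l ∈ Λ, σ l ∈ Λ)
    (hi : ∀ l ∈ Λ, ∀ j ∈ Λ, σ l = σ j → l = j) (hle : ∀ l ∈ Λ, l ≤ σ l) :
    ∀ l ∈ Λ, σ l = l := by
  have himg : Λ.image σ = Λ := by
    apply Finset.eq_of_subset_of_card_le
    · intro x hx
      obtain ⟨l, hl, rfl⟩ := Finset.mem_image.1 hx
      exact hm l hl
    · rw [Finset.card_image_of_injOn (fun a ha b hb e => hi a ha b hb e)]
  have hs : ∑ l ∈ Λ, l = ∑ l ∈ Λ, σ l := by
    conv_lhs => rw [← himg]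
    rw [Finset.sum_image (fun a ha b hb e => hi a ha b hb e)]
  intro l hl
  exact ((Finset.sum_eq_sum_iff_of_le hle).1 hs l hl).symm

theorem rigid_Star {Λ : Finset ℕ} {c : ℕ → G} {B : ℕ → Finset G} {W X : Finset G}
    (h : Sys_Star Λ c B W X) {φ : G → G} (hφ : Injective φ) (hW : Pres (W : Set G) φ)
    (hX : Pres (X : Set G) φ) : ∀ l ∈ Λ, Fixes φ (c l) := by
  classical
  intro l0 hl0 g
  have key : ∀ l, ∃ j, l ∈ Λ → j ∈ Λ ∧ φ (g * c l) = φ g * c j ∧ l ≤ j := by
    intro l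
    by_cases hl : l ∈ Λ
    swap
    · exact ⟨0, fun h' => absurd h' hl⟩
    obtain ⟨u, hu, eu⟩ := hW g (c l) (h.cW l hl)
    have leaf : ∀ b ∈ B l, ∃ j ∈ Λ, c j = u ∧ (φ g)⁻¹ * φ (g * b) ∈ B j := by
      intro b hb
      obtain ⟨b', hb', eb⟩ := hW g b (h.bW l hl b hb)
      obtain ⟨x, hx, ex⟩ := hX (g * c l) _ (h.bX l hl b hb)
      obtain ⟨j, hj, b'', hb'', rfl⟩ := h.sur x hx
      have e1 : g * c l * ((c l)⁻¹ * b) = g * b := by group
      rw [e1, eb, eu, mul_assoc] at ex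
      have e2 : b' = u * ((c j)⁻¹ * b'') := mul_left_cancel ex
      have e3 : (c j)⁻¹ * b'' = u⁻¹ * b' := by rw [e2]; group
      rcases h.sW (c j) (h.cW j hj) b'' (h.bW j hj b'' hb'') u hu b' hb' e3 with e4 | e4
      · exact absurd ((inv_mul_eq_one.1 e4) ▸ hb'') (h.cB j hj)
      · refine ⟨j, hj, e4, ?_⟩
        rw [eb, inv_mul_cancel_left, e2, ← e4, mul_inv_cancel_left]
        exact hb''
    have hne : (B l).Nonempty := Finset.card_pos.1 (by rw [h.card l hl]; omega)
    obtain ⟨b0, hb0⟩ := hne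
    obtain ⟨j, hj, ej, -⟩ := leaf b0 hb0
    refine ⟨j, fun _ => ⟨hj, by rw [eu, ej], ?_⟩⟩
    have hc : (B l).card ≤ (B j).card := by
      apply Finset.card_le_card_of_injOn (fun b => (φ g)⁻¹ * φ (g * b))
      · intro b hb
        obtain ⟨j', hj', ej', hm⟩ := leaf b hb
        have : j' = j := h.inj j' hj' j hj (ej'.trans ej.symm)
        subst this
        exact hm
      · intro a _ b _ e
        exact mul_left_cancel (hφ (mul_left_cancel e))
    rw [h.card l hl, h.card j hj] at hc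
    omega
  choose σ hσ using key
  have := perm_Star Λ σ (fun l hl => (hσ l hl).1)
    (fun l hl j hj e => h.inj l hl j hj (mul_left_cancel (hφ
      (((hσ l hl).2.1.trans (by rw [e])).trans (hσ j hj).2.1.symm))))
    (fun l hl => (hσ l hl).2.2) l0 hl0
  rw [(hσ l0 hl0).2.1, this]

theorem pick_Star [Finite G] (A : Subgroup G) (B1 B2 : Finset G) (a b : G)
    (h : B1.card + B2.card < Nat.card A) : ∃ z ∈ A, z ∉ B1 ∧ a * z * b ∉ B2 := by
  classical
  by_contra hn
  push Not at hn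
  have hsub : (A : Set G) ⊆ ((B1 ∪ B2.image (fun y => a⁻¹ * y * b⁻¹) : Finset G) : Set G) := by
    intro z hz
    by_cases h1 : z ∈ B1
    · exact Finset.mem_coe.2 (Finset.mem_union_left _ h1)
    · exact Finset.mem_coe.2 (Finset.mem_union_right _
        (Finset.mem_image.2 ⟨_, hn z hz h1, by group⟩))
  have h1 := Set.ncard_le_ncard hsub (Finset.finite_toSet _)
  rw [Set.ncard_coe_finset] at h1
  have h2 := Finset.card_union_le B1 (B2.image (fun y => a⁻¹ * y * b⁻¹))
  have h3 : (B2.image (fun y => a⁻¹ * y * b⁻¹)).card ≤ B2.card := Finset.card_image_le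
  have h4 : Nat.card A = (A : Set G).ncard := rfl
  omega

theorem two_Star (h : S_Ext) [Finite G] (A : Subgroup G)
    (hc : ∀ a ∈ A, ∀ b ∈ A, a * b = b * a) (ho : ∀ a ∈ A, Odd (orderOf a))
    (W X : Finset G) (sW : Sidon (W : Set G)) (sX : Sidon (X : Set G))
    (oW : ∀ x ∈ W, Odd (orderOf x)) (oX : ∀ x ∈ X, Odd (orderOf x)) (M : ℕ)
    (hW : W.card ≤ M) (hX : X.card ≤ M) (hM : 4 * M ^ 3 < Nat.card A) (a b : G)
    (ha : a ∈ A) (hb : b ∈ A) :
    ∃ z ∈ A, (z ∉ W ∧ Sidon (insert z (W : Set G))) ∧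
      (a * z * b ∉ X ∧ Sidon (insert (a * z * b) (X : Set G))) := by
  obtain ⟨B1, c1, h1⟩ := h G W A sW oW hc ho
  obtain ⟨B2, c2, h2⟩ := h G X A sX oX hc ho
  have p1 : W.card ^ 3 ≤ M ^ 3 := Nat.pow_le_pow_left hW 3
  have p2 : X.card ^ 3 ≤ M ^ 3 := Nat.pow_le_pow_left hX 3
  obtain ⟨z, hz, z1, z2⟩ := pick_Star A B1 B2 a b (by omega)
  exact ⟨z, hz, h1 z hz z1, h2 _ (A.mul_mem (A.mul_mem ha hz) hb) z2⟩

theorem leaves_Star (h : S_Ext) [Finite G] [DecidableEq G] (A : Subgroup G)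
    (hc : ∀ a ∈ A, ∀ b ∈ A, a * b = b * a) (ho : ∀ a ∈ A, Odd (orderOf a))
    (W X : Finset G) (sW : Sidon (W : Set G)) (sX : Sidon (X : Set G))
    (oW : ∀ x ∈ W, Odd (orderOf x)) (oX : ∀ x ∈ X, Odd (orderOf x)) (M : ℕ)
    (hM : 4 * M ^ 3 < Nat.card A) (u : G) (hu : u ∈ A) (k : ℕ)
    (hW : W.card + k ≤ M) (hX : X.card + k ≤ M) :
    ∃ B : Finset G, B.card = k ∧ (∀ b ∈ B, b ∈ A ∧ b ∉ W) ∧
      Sidon ((W ∪ B : Finset G) : Set G) ∧
      Sidon ((X ∪ B.image (fun b => u⁻¹ * b) : Finset G) : Set G) := by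
  induction k with
  | zero => exact ⟨∅, rfl, by simp, by simpa using sW, by simpa using sX⟩
  | succ k ih =>
    obtain ⟨B, cB, hB, s1, s2⟩ := ih (by omega) (by omega)
    have c1 := Finset.card_union_le W B
    have c2 := Finset.card_union_le X (B.image (fun b => u⁻¹ * b))
    have c3 : (B.image (fun b => u⁻¹ * b)).card ≤ B.card := Finset.card_image_le
    obtain ⟨z, hz, ⟨z1, z2⟩, -, z3⟩ := two_Star h A hc ho _ _ s1 s2
      (by
        intro x hx
        rcases Finset.mem_union.1 hx with hx | hx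
        · exact oW x hx
        · exact ho x (hB x hx).1)
      (by
        intro x hx
        rcases Finset.mem_union.1 hx with hx | hx
        · exact oX x hx
        · obtain ⟨b, hb, rfl⟩ := Finset.mem_image.1 hx
          exact ho _ (A.mul_mem (A.inv_mem hu) (hB b hb).1))
      M (by omega) (by omega) hM u⁻¹ 1 (A.inv_mem hu) A.one_mem
    rw [mul_one] at z3
    rw [Finset.mem_union, not_or] at z1
    refine ⟨insert z B, by rw [Finset.card_insert_of_notMem z1.2, cB], ?_, ?_, ?_⟩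
    · intro b hb
      rcases Finset.mem_insert.1 hb with rfl | hb
      · exact ⟨hz, z1.1⟩
      · exact hB b hb
    · rw [Finset.union_insert, Finset.coe_insert]
      exact z2
    · rw [Finset.image_insert, Finset.union_insert, Finset.coe_insert]
      exact z3

theorem step_Star (h : S_Ext) [Finite G] {Λ : Finset ℕ} {c : ℕ → G} {B : ℕ → Finset G}
    {W X : Finset G} (hS : Sys_Star Λ c B W X) (A : Subgroup G)
    (hc : ∀ a ∈ A, ∀ b ∈ A, a * b = b * a) (ho : ∀ a ∈ A, Odd (orderOf a)) (l : ℕ)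
    (hl : l ∉ Λ) (z : G) (hz : z ∈ A) (zW : z ∉ W) (sz : Sidon (insert z (W : Set G)))
    (hW : W.card ≤ (l + 1) ^ 2) (hX : X.card ≤ (l + 1) ^ 2)
    (hM : 4 * ((l + 2) ^ 2) ^ 3 < Nat.card A) :
    ∃ (B' : ℕ → Finset G) (W' X' : Finset G),
      Sys_Star (insert l Λ) (update c l z) B' W' X' ∧ W'.card ≤ (l + 2) ^ 2 ∧
        X'.card ≤ (l + 2) ^ 2 := by
  classical
  have c0 := Finset.card_insert_le z W
  have q : (l + 2) ^ 2 = (l + 1) ^ 2 + 2 * l + 3 := by ring
  have oW : ∀ x ∈ insert z W, Odd (orderOf x) := by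
    intro x hx
    rcases Finset.mem_insert.1 hx with rfl | hx
    · exact ho _ hz
    · exact hS.oW x hx
  obtain ⟨L, cL, hL, s1, s2⟩ := leaves_Star h A hc ho (insert z W) X
    (by rw [Finset.coe_insert]; exact sz) hS.sX oW hS.oX _ hM z hz (l + 1) (by omega) (by omega)
  have c1 := Finset.card_union_le (insert z W) L
  have c2 := Finset.card_union_le X (L.image (fun b => z⁻¹ * b))
  have c3 : (L.image (fun b => z⁻¹ * b)).card ≤ L.card := Finset.card_image_le
  have ne : ∀ j ∈ Λ, j ≠ l := fun j hj e => hl (e ▸ hj)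
  refine ⟨update B l L, insert z W ∪ L, X ∪ L.image (fun b => z⁻¹ * b),
    ⟨s1, s2, ?_, ?_, ?_, ?_, ?_, ?_, ?_, ?_, ?_⟩, by omega, by omega⟩
  · intro x hx
    rcases Finset.mem_union.1 hx with hx | hx
    · exact oW x hx
    · exact ho x (hL x hx).1
  · intro x hx
    rcases Finset.mem_union.1 hx with hx | hx
    · exact hS.oX x hx
    · obtain ⟨b, hb, rfl⟩ := Finset.mem_image.1 hx
      exact ho _ (A.mul_mem (A.inv_mem hz) (hL b hb).1)
  · intro j hj
    rcases Finset.mem_insert.1 hj with rfl | hj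
    · rw [update_self]
      exact Finset.mem_union_left _ (Finset.mem_insert_self _ _)
    · rw [update_of_ne (ne j hj)]
      exact Finset.mem_union_left _ (Finset.mem_insert_of_mem (hS.cW j hj))
  · intro j hj b hb
    rcases Finset.mem_insert.1 hj with rfl | hj
    · rw [update_self] at hb
      exact Finset.mem_union_right _ hb
    · rw [update_of_ne (ne j hj)] at hb
      exact Finset.mem_union_left _ (Finset.mem_insert_of_mem (hS.bW j hj b hb))
  · intro j hj
    rcases Finset.mem_insert.1 hj with rfl | hj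
    · rw [update_self, update_self]
      exact fun hb => (hL z hb).2 (Finset.mem_insert_self _ _)
    · rw [update_of_ne (ne j hj), update_of_ne (ne j hj)]
      exact hS.cB j hj
  · intro j hj
    rcases Finset.mem_insert.1 hj with rfl | hj
    · rw [update_self]
      exact cL
    · rw [update_of_ne (ne j hj)]
      exact hS.card j hj
  · intro j hj b hb
    rcases Finset.mem_insert.1 hj with rfl | hj
    · rw [update_self] at hb ⊢
      exact Finset.mem_union_right _ (Finset.mem_image.2 ⟨b, hb, rfl⟩)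
    · rw [update_of_ne (ne j hj)] at hb ⊢
      exact Finset.mem_union_left _ (hS.bX j hj b hb)
  · intro i hi j hj e
    rcases Finset.mem_insert.1 hi with rfl | hi' <;> rcases Finset.mem_insert.1 hj with rfl | hj'
    · rfl
    · rw [update_self, update_of_ne (ne j hj')] at e
      exact absurd (e ▸ hS.cW j hj') zW
    · rw [update_self, update_of_ne (ne i hi')] at e
      exact absurd (e ▸ hS.cW i hi') zW
    · rw [update_of_ne (ne i hi'), update_of_ne (ne j hj')] at e
      exact hS.inj i hi' j hj' e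
  · intro x hx
    rcases Finset.mem_union.1 hx with hx | hx
    · obtain ⟨j, hj, b, hb, e⟩ := hS.sur x hx
      refine ⟨j, Finset.mem_insert_of_mem hj, b, ?_, ?_⟩
      · rw [update_of_ne (ne j hj)]
        exact hb
      · rw [update_of_ne (ne j hj)]
        exact e
    · obtain ⟨b, hb, rfl⟩ := Finset.mem_image.1 hx
      refine ⟨l, Finset.mem_insert_self _ _, b, ?_, ?_⟩
      · rw [update_self]
        exact hb
      · rw [update_self]

theorem build_Star (h : S_Ext) [Finite G] (Λ : Finset ℕ) (w : ℕ → G) (A : ℕ → Subgroup G)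
    (hA : ∀ l ∈ Λ, w l ∈ A l ∧ (∀ a ∈ A l, ∀ b ∈ A l, a * b = b * a) ∧
      (∀ a ∈ A l, Odd (orderOf a)) ∧ 4 * (l + 2) ^ 6 < Nat.card (A l)) (n : ℕ) :
    ∃ (c0 c1 : ℕ → G) (B0 B1 : ℕ → Finset G) (W0 X0 W1 X1 : Finset G),
      Sys_Star (Λ.filter (· < n)) c0 B0 W0 X0 ∧ Sys_Star (Λ.filter (· < n)) c1 B1 W1 X1 ∧
      (∀ l ∈ Λ.filter (· < n), c1 l = c0 l * w l) ∧ W0.card ≤ (n + 1) ^ 2 ∧
      X0.card ≤ (n + 1) ^ 2 ∧ W1.card ≤ (n + 1) ^ 2 ∧ X1.card ≤ (n + 1) ^ 2 := by
  induction n with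
  | zero =>
    have e : Sys_Star (Λ.filter (· < 0)) (fun _ => (1 : G)) (fun _ => ∅) ∅ ∅ := by
      constructor <;> simp [Sidon]
    exact ⟨_, _, _, _, _, _, _, _, e, e, by simp, by simp, by simp, by simp, by simp⟩
  | succ n ih =>
    obtain ⟨c0, c1, B0, B1, W0, X0, W1, X1, S0, S1, hw, k1, k2, k3, k4⟩ := ih
    have q : (n + 1) ^ 2 ≤ (n + 1 + 1) ^ 2 := Nat.pow_le_pow_left (by omega) 2
    by_cases hn : n ∈ Λ
    · have e : Λ.filter (· < n + 1) = insert n (Λ.filter (· < n)) := by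
        ext j
        simp only [Finset.mem_filter, Finset.mem_insert]
        constructor
        · rintro ⟨h1, h2⟩
          rcases Nat.lt_succ_iff_lt_or_eq.1 h2 with h2 | h2
          · exact Or.inr ⟨h1, h2⟩
          · exact Or.inl h2
        · rintro (rfl | ⟨h1, h2⟩)
          · exact ⟨hn, by omega⟩
          · exact ⟨h1, by omega⟩
      obtain ⟨a1, a2, a3, a4⟩ := hA n hn
      have hM : 4 * ((n + 2) ^ 2) ^ 3 < Nat.card (A n) := by rw [← pow_mul]; exact a4
      have hl : n ∉ Λ.filter (· < n) := by simp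
      obtain ⟨z, hz, ⟨z1, z2⟩, z3, z4⟩ := two_Star h (A n) a2 a3 W0 W1 S0.sW S1.sW S0.oW S1.oW
        ((n + 2) ^ 2) (k1.trans q) (k3.trans q) hM 1 (w n) (A n).one_mem a1
      rw [one_mul] at z3 z4
      obtain ⟨B0', W0', X0', T0, m1, m2⟩ :=
        step_Star h S0 (A n) a2 a3 n hl z hz z1 z2 k1 k2 hM
      obtain ⟨B1', W1', X1', T1, m3, m4⟩ :=
        step_Star h S1 (A n) a2 a3 n hl (z * w n) ((A n).mul_mem hz a1) z3 z4 k3 k4 hM
      rw [e]
      refine ⟨_, _, _, _, _, _, _, _, T0, T1, ?_, m1, m2, m3, m4⟩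
      intro j hj
      rcases Finset.mem_insert.1 hj with rfl | hj
      · rw [update_self, update_self]
      · have ne : j ≠ n := fun e' => hl (e' ▸ hj)
        rw [update_of_ne ne, update_of_ne ne]
        exact hw j hj
    · have e : Λ.filter (· < n + 1) = Λ.filter (· < n) := by
        ext j
        simp only [Finset.mem_filter]
        constructor
        · rintro ⟨h1, h2⟩
          rcases Nat.lt_succ_iff_lt_or_eq.1 h2 with h2 | h2
          · exact ⟨h1, h2⟩
          · exact absurd (h2 ▸ h1) hn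
        · rintro ⟨h1, h2⟩
          exact ⟨h1, by omega⟩
      rw [e]
      exact ⟨_, _, _, _, _, _, _, _, S0, S1, hw, k1.trans q, k2.trans q, k3.trans q, k4.trans q⟩

end

theorem star (h : S_Ext) : S_Star := by
  intro G _ _ Λ w A hA
  obtain ⟨c0, c1, B0, B1, W0, X0, W1, X1, S0, S1, hw, -⟩ := build_Star h Λ w A hA (Λ.sup id + 1)
  have e : Λ.filter (· < Λ.sup id + 1) = Λ :=
    Finset.filter_true_of_mem fun l hl => Nat.lt_succ_of_le (Finset.le_sup (f := id) hl)
  rw [e] at S0 S1 hw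
  refine ⟨[(W0 : Set G), (X0 : Set G), (W1 : Set G), (X1 : Set G)], le_rfl, ?_, ?_⟩
  · intro S hS
    simp only [List.mem_cons, List.not_mem_nil, or_false] at hS
    rcases hS with rfl | rfl | rfl | rfl
    · exact Or.inl S0.sW
    · exact Or.inl S0.sX
    · exact Or.inl S1.sW
    · exact Or.inl S1.sX
  · rintro φ hφ hF _ ⟨l, hl, rfl⟩
    have f0 := rigid_Star S0 hφ (hF _ (by simp)) (hF _ (by simp)) l hl
    have f1 := rigid_Star S1 hφ (hF _ (by simp)) (hF _ (by simp)) l hl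
    have := f0.inv.mul f1
    rwa [hw l hl, inv_mul_cancel_left] at this

end Pool.Agent.MP_a1dcd4_co.OR

end
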